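import Pool.Agent.V5helper28.SSK.Cell

/-!
# Positive measure subfamilies of self-similar families of lines (row MP_b1773a_an), project KP

Goal: `Γ ⊆ ℝ^d × ℝ^d` (slope, position) compact, `Γ = ⋃ i, r Γ + (v i, a i)` with one ratio `0 < r < 1`
and `|I| r ^ d = 1`.  Then (3a) outside a set of heights `t` of dimension zero every
`Γ' ⊆ Γ` whose slopes have positive outer measure has `dim {a + t v | (v, a) ∈ Γ'} = d`; (3b) every
`K ⊆ ℝ^(d+1)` such that for a set of slopes `v` of positive outer measure some line `(v, a) ∈ Γ` meets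
`K` in a set of positive outer (linear) measure has `dim K = d + 1`.

Each job: one statement `S_...` below, with its proof in the doc string.  Jobs are independent (only
GOOD takes `S_MD` as a hypothesis).  File `Pool/Agent/V5<seat>/KP/<JOB>.lean`, theorem
`t_<JOB> : Pool.Agent.V5helper28.KP.S_<JOB>`.
-/

set_option autoImplicit false

namespace Pool.Agent.V5helper28.KP

open MeasureTheory Set
open Pool.Agent.V5helper28.SSK
open scoped ENNReal

/-- the composition of the homotheties `z ↦ r • z + (v i, a i)` along the word `u`;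
`X c r n u = ∑ j : Fin n, r ^ (j : ℕ) • c (u j)` -/
noncomputable def Sw {d : ℕ} {I : Type} (v a : I → E d) (r : ℝ) (n : ℕ) (u : Fin n → I)
    (z : E d × E d) : E d × E d := r ^ n • z + (X v r n u, X a r n u)

/-- JOB PC (100 lines; `nf univ A u` = number of `u'` with `A u' = A u`, `cl r n x k = ⌊x k / r ^ n⌋`,
both in V5helper28.SSK.Ent and Cell; useful: `SSK.sum_inv_nf`, `SSK.abs_apply_le_norm`).
Proof: if `‖x u' - (x u + z)‖ ≤ M r^n`, then the integer vector `j = cl (x u') - cl (x u)` has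
`|j k - z k / r ^ n| < M + 1` for all `k`; the set `J` of such `j` has at most `(2 M + 3) ^ d` elements
(an open interval of length `L` contains at most `L + 1` integers).  For each fixed `j`,
`∑ u, (nf u)⁻¹ #{u' | cl (x u') = cl (x u) + j} = ∑ over the cells q in the image, #{u' | cl (x u') = q + j}
≤ |U|`. -/
def S_PC : Prop :=
  ∀ (d : ℕ) (U : Type) [Fintype U] [Nonempty U] (r : ℝ) (n : ℕ) (x : U → E d) (M : ℝ) (z : E d),
    0 < r → 0 ≤ M →
    ∑ u : U, (nf Finset.univ (fun u => cl r n (x u)) u)⁻¹ *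
      (Nat.card {u' : U // ‖x u' - (x u + z)‖ ≤ M * r ^ n} : ℝ) ≤ (2 * M + 3) ^ d * Fintype.card U

/-- JOB PK (120 lines).  Induction on `k`, splitting off the LAST coordinate (`Fin.snoc`).  If the points
`Y (ω'), Y (ω)` at level `k + 1` are within `M ρ^(k+1)`, then the points of the prefixes are within
`M ρ^(k+1) + 2 R ρ^k ≤ M ρ^k`, and the last letters satisfy `‖x u' - (x u + z)‖ ≤ M ρ` with
`z = ρ^(-k) (Y_k (ω) - Y_k (ω'))` for the prefixes.  So for fixed prefixes the sum over the last letters is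
`≤ B`, and it is `0` unless the prefixes are within `M ρ^k`. -/
def S_PK : Prop :=
  ∀ (d : ℕ) (U : Type) [Fintype U] [Nonempty U] (x : U → E d) (f : U → ℝ) (ρ R M B : ℝ), 0 < ρ →
    ρ < 1 → (∀ u, ‖x u‖ ≤ R) → 2 * R ≤ M * (1 - ρ) → (∀ u, 0 < f u) →
    (∀ z : E d, ∑ u : U, (f u)⁻¹ * (Nat.card {u' : U // ‖x u' - (x u + z)‖ ≤ M * ρ} : ℝ) ≤ B) →
    ∀ k : ℕ, ∑ ω : Fin k → U, (∏ j, f (ω j))⁻¹ *
      (Nat.card {ω' : Fin k → U // ‖(∑ j : Fin k, ρ ^ (j : ℕ) • x (ω' j)) -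
        ∑ j : Fin k, ρ ^ (j : ℕ) • x (ω j)‖ ≤ M * ρ ^ k} : ℝ) ≤ B ^ k

/-- JOB TL (120 lines).  Let `g u = log (f u)`, `m` its mean, `h = g - m`, `|h| ≤ H`, `H ≥ 1`.
If `(2 C e^(m+δ))^k < Z k ω`, then `(∏ f (ω j))⁻¹ Z k ω > (2 C)^k` or `∑ j, g (ω j) > k (m + δ)`.
First alternative: by the hypothesis (Markov) for at most `2^(-k) |U|^k` words.  Second (Chernoff): with
`s = min (1 / H) (δ / (2 H²))` one has `e^(s h u) ≤ 1 + s h u + s² H²` (`|s h u| ≤ 1`), so the mean of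
`e^(s h)` is `≤ 1 + s² H² ≤ e^(s² H²)` and the number of words is `≤ e^(k (s² H² - s δ)) |U|^k`,
`s² H² - s δ ≤ - s δ / 2 < 0`.  `ρ = max (1/2) e^(-s δ / 2)`. -/
def S_TL : Prop :=
  ∀ (U : Type) [Fintype U] [Nonempty U] (f : U → ℝ) (C δ : ℝ) (Z : ∀ k : ℕ, (Fin k → U) → ℝ),
    0 < C → 0 < δ → (∀ u, 0 < f u) → (∀ k ω, 0 ≤ Z k ω) →
    (∀ k, ∑ ω : Fin k → U, (∏ j, f (ω j))⁻¹ * Z k ω ≤ (C * Fintype.card U) ^ k) →
    ∃ ρ : ℝ, 0 < ρ ∧ ρ < 1 ∧ ∀ k : ℕ,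
      (Nat.card {ω : Fin k → U // (2 * C * Real.exp ((∑ u, Real.log (f u)) / Fintype.card U + δ)) ^ k
        < Z k ω} : ℝ) ≤ 2 * ρ ^ k * (Fintype.card U : ℝ) ^ k

/-- JOB BLK (60 lines): words of length `k l` are words of length `k` in the words of length `l`
(`finProdFinEquiv`, value `j' + l * j` at `(j, j')`). -/
def S_BLK : Prop :=
  ∀ (d : ℕ) (I : Type) (c : I → E d) (r : ℝ) (k l : ℕ),
    ∃ e : (Fin k → Fin l → I) ≃ (Fin (k * l) → I), ∀ ω : Fin k → Fin l → I,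
      X c r (k * l) (e ω) = ∑ j : Fin k, (r ^ l) ^ (j : ℕ) • X c r l (ω j)

/-- JOB MD (60 lines), mass distribution for outer measures.  Let `ν U = volume (fst '' (A ∩ Φ⁻¹ U))`,
an outer measure on `E d` (`OuterMeasure.map Φ` of a restriction of `OuterMeasure.comap Prod.fst`, or by
hand); the hypothesis gives `ν U ≤ C diam (U) ^ s` for `diam U ≤ δ₀` (for `diam U = 0`, `s > 0` let
`δ → 0`), hence `ν ≤ C μH[s]` (`OuterMeasure.le_mkMetric`), so `μH[s] (Φ '' A) ≠ 0` because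
`ν (Φ '' A) = volume (fst '' A) ≠ 0`.  (`s = 0` is trivial.) -/
def S_MD : Prop :=
  ∀ (d : ℕ) (A : Set (E d × E d)) (Φ : E d × E d → E d) (s C δ₀ : ℝ), 0 ≤ s → 0 < δ₀ → 0 ≤ C →
    (∀ (U : Set (E d)) (δ : ℝ), 0 < δ → δ ≤ δ₀ → (∀ x ∈ U, ∀ y ∈ U, dist x y ≤ δ) →
      volume (Prod.fst '' (A ∩ Φ ⁻¹' U)) ≤ ENNReal.ofReal (C * δ ^ s)) →
    volume (Prod.fst '' A) ≠ 0 → ENNReal.ofReal s ≤ dimH (Φ '' A)

/-- JOB PCE (80 lines): pieces of level `n`.  Induction with `Fin.snoc` (or `SSK.X_append`),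
and the volume of a homothetic image (`Measure.addHaar_smul`, translation invariance). -/
def S_PCE : Prop :=
  ∀ (d : ℕ) (I : Type) [Fintype I] [Nonempty I] (v a : I → E d) (r : ℝ) (Γ : Set (E d × E d)),
    0 < r → r < 1 → Γ = ⋃ i, (fun z => r • z + (v i, a i)) '' Γ → ∀ n : ℕ,
    (Γ = ⋃ u : Fin n → I, Sw v a r n u '' Γ) ∧
    (Prod.fst '' Γ = ⋃ u : Fin n → I, (fun x => r ^ n • x + X v r n u) '' (Prod.fst '' Γ)) ∧
    ∀ u : Fin n → I, volume ((fun x => r ^ n • x + X v r n u) '' (Prod.fst '' Γ)) =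
      ENNReal.ofReal ((r ^ n) ^ d) * volume (Prod.fst '' Γ)

/-- JOB NUL (40 lines): `∑ w, vol (P w) = vol V ≤ ∑ (w ≠ u') vol (P w) + vol (P u' \ P u)`. -/
def S_NUL : Prop :=
  ∀ (d : ℕ) (V : Set (E d)) (U : Type) [Fintype U] (P : U → Set (E d)),
    (∀ u, MeasurableSet (P u)) → V = ⋃ u, P u → volume V ≠ ∞ →
    (∀ u, (Fintype.card U : ℝ≥0∞) * volume (P u) = volume V) →
    ∀ u u' : U, u ≠ u' → volume (P u ∩ P u') = 0

/-- JOB SEP (100 lines).  There is `κ > 0` with `volume (V ∩ (z + V)) > 0` for `‖z‖ < κ`: take an open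
`O ⊇ V` with `volume O < 2 volume V`, `κ` with `thickening κ V ⊆ O`; then `V, z + V ⊆ O`, so
`volume (V ∩ (z + V)) ≥ 2 volume V - volume O > 0`.  If `u ≠ u'` and `X u' - X u = r^n z` with
`‖z‖ < κ`, then the intersection of the two pieces is `r^n • (V ∩ (z + V)) + X u`, of positive volume. -/
def S_SEP : Prop :=
  ∀ (d : ℕ) (I : Type) [Fintype I] [Nonempty I] (v : I → E d) (r : ℝ) (V : Set (E d)), 0 < r →
    r < 1 → IsCompact V → volume V ≠ 0 →
    (∀ (n : ℕ) (u u' : Fin n → I), u ≠ u' →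
      volume ((fun x => r ^ n • x + X v r n u) '' V ∩ (fun x => r ^ n • x + X v r n u') '' V) = 0) →
    ∃ κ : ℝ, 0 < κ ∧ Sep v r κ

/-- JOB UNI (70 lines).  `N₀` = the union over `n`, `u ≠ u'` of the intersections (compact sets).  If
`z, z' ∈ Γ` have the same slope, not in `N₀`, then at every level `n` they are in the same piece
`Sw v a r n u '' Γ`, so `dist z z' ≤ r ^ n * diam Γ`. -/
def S_UNI : Prop :=
  ∀ (d : ℕ) (I : Type) [Fintype I] [Nonempty I] (v a : I → E d) (r : ℝ) (Γ : Set (E d × E d)),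
    0 < r → r < 1 → IsCompact Γ → (∀ n : ℕ, Γ = ⋃ u : Fin n → I, Sw v a r n u '' Γ) →
    (∀ (n : ℕ) (u u' : Fin n → I), u ≠ u' →
      volume ((fun x => r ^ n • x + X v r n u) '' (Prod.fst '' Γ) ∩
        (fun x => r ^ n • x + X v r n u') '' (Prod.fst '' Γ)) = 0) →
    ∃ N₀ : Set (E d), MeasurableSet N₀ ∧ volume N₀ = 0 ∧
      ∀ z ∈ Γ, ∀ z' ∈ Γ, z.1 = z'.1 → z.1 ∉ N₀ → z = z'

/-- JOB HULL (40 lines): for `s > dimH K` (`s` in a sequence decreasing to it) `μH[s] K = 0`, so there is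
a measurable `K_s ⊇ K` with `μH[s] K_s = 0` (`toMeasurable`); intersect.  (`dimH K ≤ n < ∞`.) -/
def S_HULL : Prop :=
  ∀ (n : ℕ) (K : Set (E n)), ∃ K' : Set (E n), K ⊆ K' ∧ MeasurableSet K' ∧ dimH K' = dimH K

/-- JOB FUB (120 lines).  The set `D = {(x, t) | x ∉ N₀, ∃ a, (x, a) ∈ Γ, pt t (a + t x) ∈ K}` is the
image of the measurable set `{(z, t) | z ∈ Γ, z.1 ∉ N₀, pt t (z.2 + t z.1) ∈ K}` under the map
`(z, t) ↦ (z.1, t)`, which is injective on it, hence measurable (`MeasurableSet.image_of_measurable_injOn`).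
If the conclusion fails, then almost all sections `{x | (x, t) ∈ D}` are null, so `D` is null
(`Measure.measure_prod_null`, swapped), so for almost all `x` the section `{t | (x, t) ∈ D}` is null;
but for `x ∉ N₀` in the given set of positive outer measure it contains
`{t | pt t (a + t x) ∈ K}`. -/
def S_FUB : Prop :=
  ∀ (d : ℕ) (Γ : Set (E d × E d)) (N₀ : Set (E d)) (K : Set (E (d + 1))), IsCompact Γ →
    MeasurableSet N₀ → volume N₀ = 0 → (∀ z ∈ Γ, ∀ z' ∈ Γ, z.1 = z'.1 → z.1 ∉ N₀ → z = z') →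
    MeasurableSet K →
    volume {x : E d | ∃ a : E d, (x, a) ∈ Γ ∧ volume {t : ℝ | pt t (a + t • x) ∈ K} ≠ 0} ≠ 0 →
    volume {t : ℝ | volume (Prod.fst '' {z : E d × E d | z ∈ Γ ∧ pt t (z.2 + t • z.1) ∈ K}) ≠ 0} ≠ 0

/-- JOB GOOD (200 lines; theorem `t_GOOD : S_MD → S_GOOD`).  Notation `N = |I|`, `V = fst '' Γ`,
`V_u = r^n V + X v r n u`, `vol V_u = N^(-n) vol V`, `Φ z = z.2 + t z.1`, `c = ct v a t`
(`c i = a i + t • v i`), so `Φ (Sw u z) = r^n Φ z + X c r n u`.  `s = d - log A / (l log r⁻¹)`; if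
`s ≤ 0` trivial.  Call `u : Fin (k * l) → I` bad if it is in the set of the hypothesis, and let `B_k` be
the union of the `V_u`, `u` bad: `vol B_k ≤ 2 ρ^k vol V`.  Choose `k₀` such that
`∑ (k ≥ k₀) 2 ρ^k vol V < vol (fst '' Γ')` and put `Γ'' = {z ∈ Γ' | z.1 ∉ B_k for all k ≥ k₀}`; then
`vol (fst '' Γ'') > 0`.  Apply `S_MD` to `A := Γ''`, `δ₀ = r^(k₀ l)`: for `0 < δ ≤ δ₀` choose `k ≥ k₀`
with `r^((k+1) l) < δ ≤ r^(k l)`.  All words `u` of length `k l` such that some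
`z ∈ Γ'' ∩ Φ⁻¹ U` lies in `Sw u '' Γ` are good (not bad) and their points `X c r (k l) u` are mutually within
`δ + 2 R r^(k l) ≤ M r^(k l)`, so there are at most `A^k` of them, and
`vol (fst '' (Γ'' ∩ Φ⁻¹ U)) ≤ A^k (r^(k l))^d vol V = (r^(k l))^s vol V ≤ r^(-l s) vol V δ^s`. -/
def S_GOOD : Prop :=
  ∀ (d : ℕ) (I : Type) [Fintype I] [Nonempty I] (v a : I → E d) (r : ℝ) (Γ : Set (E d × E d)),
    0 < r → r < 1 → (Fintype.card I : ℝ) * r ^ d = 1 → IsCompact Γ →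
    (∀ n : ℕ, Γ = ⋃ u : Fin n → I, Sw v a r n u '' Γ) →
    ∀ (t R M A ρ : ℝ) (l : ℕ), 1 ≤ l → 1 ≤ A → 0 < ρ → ρ < 1 → (∀ z ∈ Γ, ‖z.2 + t • z.1‖ ≤ R) →
    2 * R + 1 ≤ M →
    (∀ k : ℕ, (Nat.card {u : Fin (k * l) → I // A ^ k < (Nat.card {u' : Fin (k * l) → I //
        ‖X (ct v a t) r (k * l) u' - X (ct v a t) r (k * l) u‖ ≤ M * r ^ (k * l)} : ℝ)} : ℝ) ≤
      2 * ρ ^ k * (Fintype.card I : ℝ) ^ (k * l)) →
    ∀ Γ' : Set (E d × E d), Γ' ⊆ Γ → volume (Prod.fst '' Γ') ≠ 0 →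
      ENNReal.ofReal (d - Real.log A / (l * Real.log r⁻¹)) ≤
        dimH ((fun z : E d × E d => z.2 + t • z.1) '' Γ')

/-- JOB A2 (helper28): entropy drop implies clumps. -/
def S_A2 : Prop :=
  ∀ (d : ℕ) (I : Type) [Fintype I] [Nonempty I] (c : I → E d) (r η C : ℝ) (n₀ : ℕ), 0 < r → r < 1 →
    0 < η → (∀ n : ℕ, n₀ ≤ n → he c r n ≤ n * (Real.log (Fintype.card I) + η * Real.log r) + C) →
    ∀ q : ℕ, ∃ n₁ : ℕ, ∀ n : ℕ, n₁ ≤ n → Clump c r (η / 4) q n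

end Pool.Agent.V5helper28.KP
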