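import Pool.Agent.V5helper28.KP.Stm

/-!
# Assembly of project KP
-/

set_option autoImplicit false

namespace Pool.Agent.V5helper28.KP

open MeasureTheory Set
open Pool.Agent.V5helper28.SSK
open scoped ENNReal

theorem he_eq_mean {d : ℕ} {I : Type} [Fintype I] [Nonempty I] (c : I → E d) (r : ℝ) (l : ℕ) :
    he c r l = l * Real.log (Fintype.card I) -
      (∑ u : Fin l → I, Real.log (nf Finset.univ (fun u : Fin l → I => cl r l (X c r l u)) u)) /
        Fintype.card (Fin l → I) := by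
  have hcard : (0 : ℝ) < Fintype.card (Fin l → I) := by exact_mod_cast Fintype.card_pos
  unfold he Ent
  rw [Finset.card_univ, eq_sub_iff_add_eq, ← add_div, ← Finset.sum_add_distrib]
  have h1 : ∀ u ∈ (Finset.univ : Finset (Fin l → I)),
      Real.log (Fintype.card (Fin l → I) / nf Finset.univ (fun u : Fin l → I => cl r l (X c r l u)) u) +
        Real.log (nf Finset.univ (fun u : Fin l → I => cl r l (X c r l u)) u) =
      l * Real.log (Fintype.card I) := by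
    intro u hu
    have p := nf_pos (A := fun u : Fin l → I => cl r l (X c r l u)) hu
    rw [Real.log_div hcard.ne' p.ne', sub_add_cancel, Fintype.card_fun, Fintype.card_fin]
    push_cast
    rw [Real.log_pow]
  rw [Finset.sum_congr rfl h1, Finset.sum_const, nsmul_eq_mul, Finset.card_univ,
    mul_div_cancel_left₀ _ hcard.ne']

theorem good_dim (hPC : S_PC) (hPK : S_PK) (hTL : S_TL) (hBLK : S_BLK) (hGOOD : S_GOOD)
    {d : ℕ} {I : Type} [Fintype I] [Nonempty I] (v a : I → E d) {r : ℝ} {Γ : Set (E d × E d)}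
    (hr : 0 < r) (hr1 : r < 1) (hN : (Fintype.card I : ℝ) * r ^ d = 1) (hc : IsCompact Γ)
    (hΓn : ∀ n : ℕ, Γ = ⋃ u : Fin n → I, Sw v a r n u '' Γ) (t : ℝ)
    (hent : ∀ η : ℝ, 0 < η → ∀ n₀ : ℕ, ∃ n : ℕ, n₀ ≤ n ∧
      n * (Real.log (Fintype.card I) + η * Real.log r) < he (ct v a t) r n)
    {Γ' : Set (E d × E d)} (hΓ' : Γ' ⊆ Γ) (hpos : volume (Prod.fst '' Γ') ≠ 0) :
    (d : ℝ≥0∞) ≤ dimH ((fun z : E d × E d => z.2 + t • z.1) '' Γ') := by
  classical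
  obtain ⟨c, hcdef⟩ : ∃ c : I → E d, c = ct v a t := ⟨_, rfl⟩
  obtain ⟨lam, hlam⟩ : ∃ lam : ℝ, lam = Real.log r⁻¹ := ⟨_, rfl⟩
  have hlam0 : 0 < lam := by
    rw [hlam]
    exact Real.log_pos ((one_lt_inv₀ hr).2 hr1)
  have hlogr : Real.log r = -lam := by rw [hlam, Real.log_inv, neg_neg]
  -- bounds
  obtain ⟨R₀, hR₀⟩ := (hc.image (f := fun z : E d × E d => z.2 + t • z.1)
    (by fun_prop)).isBounded.exists_norm_le
  obtain ⟨R, hRdef⟩ : ∃ R : ℝ, R = max R₀ 0 := ⟨_, rfl⟩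
  have hR0 : 0 ≤ R := by rw [hRdef]; exact le_max_right _ _
  have hR : ∀ z ∈ Γ, ‖z.2 + t • z.1‖ ≤ R := fun z hz =>
    (hR₀ _ (mem_image_of_mem (fun z : E d × E d => z.2 + t • z.1) hz)).trans
      (by rw [hRdef]; exact le_max_left _ _)
  obtain ⟨R₁, hR₁, hX⟩ : ∃ R₁ : ℝ, 0 ≤ R₁ ∧ ∀ (k : ℕ) (ω : Fin k → I), ‖X c r k ω‖ ≤ R₁ := by
    have h0 : 0 ≤ ∑ i, ‖c i‖ := Finset.sum_nonneg fun _ _ => norm_nonneg _
    refine ⟨(∑ i, ‖c i‖) / (1 - r), div_nonneg h0 (by linarith), fun k ω => ?_⟩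
    exact norm_X_le hr hr1 h0 (fun i => Finset.single_le_sum (f := fun i => ‖c i‖)
      (fun _ _ => norm_nonneg _) (Finset.mem_univ i)) k ω
  obtain ⟨M, hMdef⟩ : ∃ M : ℝ, M = max (2 * R + 1) (2 * R₁ / (1 - r)) := ⟨_, rfl⟩
  have hM1 : 2 * R + 1 ≤ M := by rw [hMdef]; exact le_max_left _ _
  have hM2 : 2 * R₁ ≤ M * (1 - r) := by
    have : 2 * R₁ / (1 - r) ≤ M := by rw [hMdef]; exact le_max_right _ _
    rwa [div_le_iff₀ (by linarith)] at this
  have hM0 : 0 ≤ M := by linarith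
  obtain ⟨C, hCdef⟩ : ∃ C : ℝ, C = (2 * M + 3) ^ d := ⟨_, rfl⟩
  have hC1 : 1 ≤ C := by
    rw [hCdef]
    exact one_le_pow₀ (by linarith)
  -- it suffices to prove `ofReal s ≤ dimH` for `s < d`
  refine le_of_forall_lt fun y hy => ?_
  have hyt : y ≠ ∞ := (hy.trans (ENNReal.natCast_lt_top d)).ne
  obtain ⟨s, hys, hsd⟩ : ∃ s : ℝ, y < ENNReal.ofReal s ∧ s < d := by
    obtain ⟨z, hyz, hzd⟩ := exists_between hy
    have hzt : z ≠ ∞ := (hzd.trans (ENNReal.natCast_lt_top d)).ne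
    refine ⟨z.toReal, by rwa [ENNReal.ofReal_toReal hzt], ?_⟩
    have := (ENNReal.toReal_lt_toReal hzt (ENNReal.natCast_ne_top d)).2 hzd
    simpa using this
  refine lt_of_lt_of_le hys ?_
  have hε : 0 < (d : ℝ) - s := by linarith
  obtain ⟨n₀, hn₀⟩ := exists_nat_ge (2 * (Real.log (2 * C) + 1) / (lam * ((d : ℝ) - s)))
  rw [div_le_iff₀ (by positivity)] at hn₀
  obtain ⟨l, hl, hhe⟩ := hent (((d : ℝ) - s) / 2) (by linarith) (max n₀ 1)
  have hl1 : 1 ≤ l := (le_max_right _ _).trans hl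
  have hl0 : (n₀ : ℝ) ≤ l := by exact_mod_cast (le_max_left _ _).trans hl
  have hlR : (0 : ℝ) < l := by exact_mod_cast hl1
  rw [← hcdef] at hhe
  set f : (Fin l → I) → ℝ := nf Finset.univ (fun u : Fin l → I => cl r l (X c r l u)) with hf
  have hf1 : ∀ u, 1 ≤ f u := fun u => one_le_nf (Finset.mem_univ u)
  have hf0 : ∀ u, 0 < f u := fun u => lt_of_lt_of_le one_pos (hf1 u)
  obtain ⟨m, hm⟩ : ∃ m : ℝ, m = (∑ u, Real.log (f u)) / Fintype.card (Fin l → I) := ⟨_, rfl⟩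
  have hm0 : 0 ≤ m := by
    rw [hm]
    exact div_nonneg (Finset.sum_nonneg fun u _ => Real.log_nonneg (hf1 u)) (Nat.cast_nonneg _)
  have hmle : m ≤ ((d : ℝ) - s) / 2 * lam * l := by
    have h1 := he_eq_mean c r l
    rw [← hf, ← hm] at h1
    rw [h1, hlogr] at hhe
    nlinarith
  have hrl0 : 0 < r ^ l := pow_pos hr l
  have hrl1 : r ^ l < 1 := pow_lt_one₀ hr.le hr1 (by omega)
  have hrlr : r ^ l ≤ r := by
    calc r ^ l ≤ r ^ 1 := pow_le_pow_of_le_one hr.le hr1.le hl1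
      _ = r := pow_one r
  have hpc := fun z => hPC d (Fin l → I) r l (X c r l) M z hr hM0
  rw [← hCdef] at hpc
  have hpk := hPK d (Fin l → I) (X c r l) f (r ^ l) R₁ M (C * Fintype.card (Fin l → I)) hrl0 hrl1
    (hX l) (hM2.trans (mul_le_mul_of_nonneg_left (by linarith) hM0)) hf0 hpc
  obtain ⟨ρ, hρ0, hρ1, htl⟩ := hTL (Fin l → I) f C 1
    (fun k ω => (Nat.card {ω' : Fin k → (Fin l → I) //
      ‖(∑ j : Fin k, (r ^ l) ^ (j : ℕ) • X c r l (ω' j)) -
        ∑ j : Fin k, (r ^ l) ^ (j : ℕ) • X c r l (ω j)‖ ≤ M * (r ^ l) ^ k} : ℝ))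
    (by linarith) one_pos hf0 (fun k ω => Nat.cast_nonneg _) hpk
  rw [← hm] at htl
  obtain ⟨A, hA⟩ : ∃ A : ℝ, A = 2 * C * Real.exp (m + 1) := ⟨_, rfl⟩
  rw [← hA] at htl
  have hA1 : 1 ≤ A := by
    rw [hA]
    have h1 : 1 ≤ Real.exp (m + 1) := Real.one_le_exp (by linarith)
    nlinarith
  have hg := hGOOD d I v a r Γ hr hr1 hN hc hΓn t R M A ρ l hl1 hA1 hρ0 hρ1 hR hM1
    (by
      intro k
      rw [← hcdef]
      obtain ⟨e, he⟩ := hBLK d I c r k l
      have hpow : (r ^ l) ^ k = r ^ (k * l) := by rw [← pow_mul, mul_comm]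
      have h1 := htl k
      have h2 : (Fintype.card (Fin l → I) : ℝ) ^ k = (Fintype.card I : ℝ) ^ (k * l) := by
        rw [Fintype.card_fun, Fintype.card_fin]
        push_cast
        rw [← pow_mul, mul_comm]
      rw [h2] at h1
      refine le_trans (le_of_eq ?_) h1
      congr 1
      refine Nat.card_congr (Equiv.subtypeEquiv e.symm fun u => ?_)
      have h3 : Nat.card {u' : Fin (k * l) → I // ‖X c r (k * l) u' - X c r (k * l) u‖ ≤
          M * r ^ (k * l)} = Nat.card {ω' : Fin k → (Fin l → I) //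
          ‖(∑ j : Fin k, (r ^ l) ^ (j : ℕ) • X c r l (ω' j)) -
            ∑ j : Fin k, (r ^ l) ^ (j : ℕ) • X c r l (e.symm u j)‖ ≤ M * (r ^ l) ^ k} := by
        refine Nat.card_congr (Equiv.subtypeEquiv e.symm fun u' => ?_)
        rw [← he (e.symm u'), ← he (e.symm u), Equiv.apply_symm_apply, Equiv.apply_symm_apply,
          hpow]
      rw [h3]) Γ' hΓ' hpos
  refine le_trans (ENNReal.ofReal_le_ofReal ?_) hg
  have hlogA : Real.log A = Real.log (2 * C) + (m + 1) := by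
    rw [hA, Real.log_mul (by positivity) (Real.exp_pos _).ne', Real.log_exp]
  rw [← hlam, hlogA]
  have h5 : (Real.log (2 * C) + (m + 1)) / (l * lam) ≤ (d : ℝ) - s := by
    rw [div_le_iff₀ (by positivity)]
    have h6 : (n₀ : ℝ) * (lam * ((d : ℝ) - s)) ≤ l * (lam * ((d : ℝ) - s)) :=
      mul_le_mul_of_nonneg_right hl0 (by positivity)
    nlinarith
  linarith

/-- a homogeneous self-similar family of lines with `m r ^ d = 1` -/
def Homog {d : ℕ} (Γ : Set (E d × E d)) : Prop :=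
  IsCompact Γ ∧ ∃ (m : ℕ) (r : ℝ) (b : Fin m → E d × E d), 0 < r ∧ r < 1 ∧ (m : ℝ) * r ^ d = 1 ∧
    Γ = ⋃ i, (fun z => r • z + b i) '' Γ

theorem fin_one (hA2 : S_A2) (hW : JobW) (hPCE : S_PCE) (hNUL : S_NUL) (hSEP : S_SEP)
    (hUNI : S_UNI) (hHULL : S_HULL) (hFUB : S_FUB) (hPC : S_PC) (hPK : S_PK) (hTL : S_TL)
    (hBLK : S_BLK) (hGOOD : S_GOOD) (hS : JobS) {d : ℕ} {Γ : Set (E d × E d)} (hΓ : Homog Γ) :
    ∃ Z : Set ℝ, dimH Z = 0 ∧
      (∀ t, t ∉ Z → ∀ Γ' : Set (E d × E d), Γ' ⊆ Γ → volume (Prod.fst '' Γ') ≠ 0 →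
        dimH ((fun z : E d × E d => z.2 + t • z.1) '' Γ') = d) ∧
      ∀ K : Set (E (d + 1)),
        volume {x : E d | ∃ a : E d, (x, a) ∈ Γ ∧ volume {t : ℝ | pt t (a + t • x) ∈ K} ≠ 0} ≠ 0 →
        dimH K = d + 1 := by
  classical
  by_cases hV : volume (Prod.fst '' Γ) = 0
  · refine ⟨∅, dimH_empty, fun t _ Γ' h1 h2 => absurd ?_ h2, fun K hK => absurd ?_ hK⟩
    · exact measure_mono_null (image_mono h1) hV
    · refine measure_mono_null ?_ hV
      rintro x ⟨a, ha, _⟩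
      exact ⟨(x, a), ha, rfl⟩
  obtain ⟨hc, m, r, b, hr, hr1, hN, hb⟩ := hΓ
  have hm : 0 < m := by
    rcases Nat.eq_zero_or_pos m with h | h
    · rw [h] at hN; simp at hN
    · exact h
  have : Nonempty (Fin m) := ⟨⟨0, hm⟩⟩
  set v : Fin m → E d := fun i => (b i).1 with hv
  set a : Fin m → E d := fun i => (b i).2 with ha
  have hb' : Γ = ⋃ i, (fun z => r • z + (v i, a i)) '' Γ := hb
  have hN' : (Fintype.card (Fin m) : ℝ) * r ^ d = 1 := by rw [Fintype.card_fin]; exact hN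
  have hpce := hPCE d (Fin m) v a r Γ hr hr1 hb'
  have hVc : IsCompact (Prod.fst '' Γ) := hc.image continuous_fst
  have hnul : ∀ (n : ℕ) (u u' : Fin n → Fin m), u ≠ u' →
      volume ((fun x => r ^ n • x + X v r n u) '' (Prod.fst '' Γ) ∩
        (fun x => r ^ n • x + X v r n u') '' (Prod.fst '' Γ)) = 0 := by
    intro n u u' huu
    obtain ⟨_, h2, h3⟩ := hpce n
    refine hNUL d (Prod.fst '' Γ) (Fin n → Fin m)
      (fun u => (fun x => r ^ n • x + X v r n u) '' (Prod.fst '' Γ)) ?_ h2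
      hVc.measure_lt_top.ne ?_ u u' huu
    · intro w
      exact (hVc.image (by fun_prop)).isClosed.measurableSet
    · intro w
      rw [h3 w, ← mul_assoc]
      have h4 : (Fintype.card (Fin n → Fin m) : ℝ≥0∞) * ENNReal.ofReal ((r ^ n) ^ d) = 1 := by
        rw [← ENNReal.ofReal_natCast, ← ENNReal.ofReal_mul (Nat.cast_nonneg _)]
        have h5 : (Fintype.card (Fin n → Fin m) : ℝ) * (r ^ n) ^ d = 1 := by
          rw [Fintype.card_fun]
          simp only [Fintype.card_fin]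
          push_cast
          rw [← pow_mul, mul_comm n d, pow_mul, ← mul_pow, hN, one_pow]
        rw [h5, ENNReal.ofReal_one]
      rw [h4, one_mul]
  obtain ⟨κ, hκ, hsep⟩ := hSEP d (Fin m) v r (Prod.fst '' Γ) hr hr1 hVc hV hnul
  obtain ⟨N₀, hN₀m, hN₀, huni⟩ := hUNI d (Fin m) v a r Γ hr hr1 hc (fun n => (hpce n).1) hnul
  -- the exceptional set
  obtain ⟨Z, hZ⟩ : ∃ Z : Set ℝ, Z = ⋃ k : ℕ, {t : ℝ | ∀ q : ℕ, ∃ n₁ : ℕ, ∀ n : ℕ, n₁ ≤ n →
      Clump (ct v a t) r (1 / ((k : ℝ) + 1) / 4) q n} := ⟨_, rfl⟩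
  have hZ0 : dimH Z = 0 := by
    rw [hZ, dimH_iUnion]
    simp only [ENNReal.iSup_eq_zero]
    intro k
    exact hW d (Fin m) v a r κ _ hr hr1 hκ (by positivity) hsep
  have hvZ : volume Z = 0 := by
    rw [← hausdorffMeasure_real]
    refine hausdorffMeasure_of_dimH_lt (d := 1) ?_
    rw [hZ0]
    simp
  have hlogr : Real.log r < 0 := Real.log_neg hr hr1
  have hle : ∀ t, t ∉ Z → ∀ Γ' : Set (E d × E d), Γ' ⊆ Γ → volume (Prod.fst '' Γ') ≠ 0 →
      (d : ℝ≥0∞) ≤ dimH ((fun z : E d × E d => z.2 + t • z.1) '' Γ') := by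
    intro t ht Γ' hΓ' hpos
    refine good_dim hPC hPK hTL hBLK hGOOD v a hr hr1 hN' hc (fun n => (hpce n).1) t ?_ hΓ' hpos
    intro η hη n₀
    by_contra hcon
    push Not at hcon
    obtain ⟨k, hk⟩ := exists_nat_one_div_lt hη
    have hk0 : (0 : ℝ) < 1 / ((k : ℝ) + 1) := by positivity
    refine ht ?_
    rw [hZ]
    refine mem_iUnion.2 ⟨k, ?_⟩
    refine hA2 d (Fin m) (ct v a t) r (1 / ((k : ℝ) + 1)) 0 n₀ hr hr1 hk0 fun n hn => ?_
    refine (hcon n hn).trans ?_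
    rw [add_zero]
    refine mul_le_mul_of_nonneg_left ?_ (Nat.cast_nonneg _)
    nlinarith
  refine ⟨Z, hZ0, fun t ht Γ' hΓ' hpos => le_antisymm ?_ (hle t ht Γ' hΓ' hpos), fun K hK => ?_⟩
  · calc dimH ((fun z : E d × E d => z.2 + t • z.1) '' Γ') ≤ dimH (univ : Set (E d)) :=
          dimH_mono (subset_univ _)
      _ = d := by
        rw [Real.dimH_univ_eq_finrank]
        simp
  · obtain ⟨K', hKK', hK'm, hK'd⟩ := hHULL (d + 1) K
    have hK' : volume {x : E d | ∃ a : E d, (x, a) ∈ Γ ∧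
        volume {t : ℝ | pt t (a + t • x) ∈ K'} ≠ 0} ≠ 0 := by
      intro h0
      refine hK (measure_mono_null ?_ h0)
      rintro x ⟨a, ha, hx⟩
      refine ⟨a, ha, fun h1 => hx (measure_mono_null ?_ h1)⟩
      intro t ht
      exact hKK' ht
    have hfub := hFUB d Γ N₀ K' hc hN₀m hN₀ huni hK'm hK'
    rw [← hK'd]
    refine le_antisymm ?_ ?_
    · calc dimH K' ≤ dimH (univ : Set (E (d + 1))) := dimH_mono (subset_univ _)
        _ = d + 1 := by
          rw [Real.dimH_univ_eq_finrank]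
          simp
    · refine hS d K' ({t : ℝ | volume (Prod.fst '' {z : E d × E d | z ∈ Γ ∧
        pt t (z.2 + t • z.1) ∈ K'}) ≠ 0} \ Z) d ?_ ?_
      · rw [measure_sdiff_null hvZ]
        exact pos_iff_ne_zero.2 hfub
      · rintro t ⟨ht, htZ⟩
        have hsub : (fun z : E d × E d => z.2 + t • z.1) '' {z : E d × E d | z ∈ Γ ∧
            pt t (z.2 + t • z.1) ∈ K'} ⊆ {y : E d | pt t y ∈ K'} := by
          rintro _ ⟨z, hz, rfl⟩
          exact hz.2
        refine ⟨?_, (hle t htZ _ (fun z hz => hz.1) ht).trans (dimH_mono hsub)⟩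
        have hne : (Prod.fst '' {z : E d × E d | z ∈ Γ ∧ pt t (z.2 + t • z.1) ∈ K'}).Nonempty := by
          rw [nonempty_iff_ne_empty]
          intro h0
          exact ht (by rw [h0]; exact measure_empty)
        obtain ⟨_, z, hz, _⟩ := hne
        exact ⟨_, hsub ⟨z, hz, rfl⟩⟩

/-- countably many families -/
theorem fin_all (hA2 : S_A2) (hW : JobW) (hPCE : S_PCE) (hNUL : S_NUL) (hSEP : S_SEP)
    (hUNI : S_UNI) (hHULL : S_HULL) (hFUB : S_FUB) (hPC : S_PC) (hPK : S_PK) (hTL : S_TL)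
    (hBLK : S_BLK) (hGOOD : S_GOOD) (hS : JobS) {d : ℕ} (Γ : ℕ → Set (E d × E d))
    (hΓ : ∀ j, Homog (Γ j)) :
    ∃ Z : Set ℝ, dimH Z = 0 ∧
      (∀ t, t ∉ Z → ∀ Γ' : Set (E d × E d), Γ' ⊆ ⋃ j, Γ j → volume (Prod.fst '' Γ') ≠ 0 →
        dimH ((fun z : E d × E d => z.2 + t • z.1) '' Γ') = d) ∧
      ∀ K : Set (E (d + 1)),
        volume {x : E d | ∃ a : E d, (x, a) ∈ ⋃ j, Γ j ∧
          volume {t : ℝ | pt t (a + t • x) ∈ K} ≠ 0} ≠ 0 →
        dimH K = d + 1 := by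
  have h := fun j => fin_one hA2 hW hPCE hNUL hSEP hUNI hHULL hFUB hPC hPK hTL hBLK hGOOD hS (hΓ j)
  choose Z hZ0 hZ1 hZ2 using h
  refine ⟨⋃ j, Z j, ?_, fun t ht Γ' hΓ' hpos => ?_, fun K hK => ?_⟩
  · rw [dimH_iUnion]
    simp only [ENNReal.iSup_eq_zero]
    exact hZ0
  · rw [mem_iUnion] at ht
    push Not at ht
    have h1 : ∃ j, volume (Prod.fst '' (Γ' ∩ Γ j)) ≠ 0 := by
      by_contra hcon
      push Not at hcon
      refine hpos (measure_mono_null ?_ (measure_iUnion_null hcon))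
      rintro _ ⟨z, hz, rfl⟩
      obtain ⟨j, hj⟩ := mem_iUnion.1 (hΓ' hz)
      exact mem_iUnion.2 ⟨j, z, ⟨hz, hj⟩, rfl⟩
    obtain ⟨j, hj⟩ := h1
    have h2 := hZ1 j t (ht j) (Γ' ∩ Γ j) inter_subset_right hj
    refine le_antisymm ?_ ?_
    · calc dimH ((fun z : E d × E d => z.2 + t • z.1) '' Γ') ≤ dimH (univ : Set (E d)) :=
            dimH_mono (subset_univ _)
        _ = d := by
          rw [Real.dimH_univ_eq_finrank]
          simp
    · rw [← h2]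
      exact dimH_mono (image_mono inter_subset_left)
  · have h1 : ∃ j, volume {x : E d | ∃ a : E d, (x, a) ∈ Γ j ∧
        volume {t : ℝ | pt t (a + t • x) ∈ K} ≠ 0} ≠ 0 := by
      by_contra hcon
      push Not at hcon
      refine hK (measure_mono_null ?_ (measure_iUnion_null hcon))
      rintro x ⟨a, ha, hx⟩
      obtain ⟨j, hj⟩ := mem_iUnion.1 ha
      exact mem_iUnion.2 ⟨j, a, hj, hx⟩
    obtain ⟨j, hj⟩ := h1
    exact hZ2 j K hj

end Pool.Agent.V5helper28.KP
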