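import Pool.Agent.V5helper28.SSK.Defs

/-!
# Graph-directed families of lines (row MP_b1773a_an), project KP, second part

Adaptations of `V5helper9.SSK.JobG` and `V5helper72.SSK.JobB` from self-similar sets to strongly
connected graph-directed systems of homotheties (finite automata; also finite groups of rotations).
-/

set_option autoImplicit false

namespace Pool.Agent.V5helper28.KP

open MeasureTheory Set
open Pool.Agent.V5helper28.SSK
open scoped ENNReal

/-- A strongly connected graph-directed system of homotheties of `ℝ^d × ℝ^d`: vertices `P`,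
edges `I` from `src i` to `tgt i`, `Γ p = ⋃ (src i = p), R i • Γ (tgt i) + b i`. -/
structure GD {d : ℕ} (P I : Type) (src tgt : I → P) (R : I → ℝ) (b : I → E d × E d)
    (Γ : P → Set (E d × E d)) : Prop where
  ratio : ∀ i, 0 < R i ∧ R i < 1
  nonempty : ∀ p, (Γ p).Nonempty
  compact : ∀ p, IsCompact (Γ p)
  inv : ∀ p, Γ p = ⋃ (i : I) (_ : src i = p), (fun z => R i • z + b i) '' Γ (tgt i)
  conn : ∀ p q : P, Relation.ReflTransGen (fun p q => ∃ i, src i = p ∧ tgt i = q) p q

/-- JOB GG (adapt `V5helper9.SSK.JobG`, 361 lines; its lemmas `sep_of`, `ratios`, `maxfam` can be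
imported).  Words are paths `w` from `p`, `Γ p` is the union of the pieces
`ρ_w • Γ (end w) + B w` over the paths of length `k`.  For every vertex `q` fix a path `c q` from
`q` to `p` (conn), with ratio `ρ (c q)` (bounded below, finitely many).  Take `s < s' < dimH`.
As in JobG, among the paths of length `k` (large) there is a class of paths with the same ratio
`ρ` AND THE SAME END `q` (the number of classes is at most `(k + 1) ^ |I| * |P|`), with more than `ρ ^ (-s')`
members whose slopes are `ρ (D + 1)`-separated.  Append `c q`: `r = ρ ρ (c q)`, the slope parts are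
`v_w + ρ v_(c q)`, the common shift does not change the separation, and the maps
send `Γ p` into `Γ p`.  As `ρ → 0` (`k → ∞`), `m ≥ ρ ^ (-s') ≥ r ^ (-s)`. -/
def S_GG : Prop :=
  ∀ (d : ℕ) (P I : Type) [Finite P] [Fintype I] (src tgt : I → P) (R : I → ℝ)
    (b : I → E d × E d) (Γ : P → Set (E d × E d)), GD P I src tgt R b Γ → ∀ (p : P) (s : ℝ),
    0 < s → ENNReal.ofReal s < dimH (Prod.fst '' Γ p) →
    ∃ (m : ℕ) (r κ : ℝ) (v a : Fin m → E d), 0 < m ∧ 0 < r ∧ r < 1 ∧ 0 < κ ∧
      (∀ k, ∀ z ∈ Γ p, r • z + (v k, a k) ∈ Γ p) ∧ Sep v r κ ∧ s ≤ Real.log m / Real.log r⁻¹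

/-- JOB BB (adapt `V5helper72.SSK.JobB`, 126 lines).  Baire category in `Γ p`: there are rational
`t₁ < t₂` and a piece `ρ_w • Γ (end w) + B w` of `Γ p` all of whose lines have their part over
`[t₁, t₂]` in `K`; append a path from `end w` to `p`. -/
def S_BB : Prop :=
  ∀ (d : ℕ) (P I : Type) [Finite P] [Fintype I] (src tgt : I → P) (R : I → ℝ)
    (b : I → E d × E d) (Γ : P → Set (E d × E d)), GD P I src tgt R b Γ → ∀ p : P,
    ∀ K : Set (E (d + 1)), IsClosed K →
    (∀ z ∈ Γ p, ∃ t₁ t₂ : ℝ, t₁ < t₂ ∧ ∀ t ∈ Icc t₁ t₂, pt t (z.2 + t • z.1) ∈ K) →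
    ∃ (R' : ℝ) (b' : E d × E d) (t₁ t₂ : ℝ), 0 < R' ∧ t₁ < t₂ ∧
      ∀ z ∈ Γ p, ∀ t ∈ Icc t₁ t₂,
        pt t ((R' • z + b').2 + t • (R' • z + b').1) ∈ K

end Pool.Agent.V5helper28.KP
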