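import Pool.Agent.V5helper28.SSK.Defs

/-!
# Arbitrary sets meeting the lines in positive length (row MP_b1773a_an), project KP, third part

For a general self-similar family `Γ` (any ratios) `SSK.JobG` gives homogeneous subsystems
`z ↦ r • z + (v k, a k)`, `k : Fin m`, of `Γ` with separated slopes and `log m / log r⁻¹` close to
`dim (slopes)`.  With the uniform product measure on the codes `ℕ → Fin m` one proves: every
(arbitrary) `K` that meets each line of `Γ` in positive outer length has `dim K ≥ 1 + dim (slopes)`.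
-/

set_option autoImplicit false

namespace Pool.Agent.V5helper28.KP

open MeasureTheory Set
open Pool.Agent.V5helper28.SSK
open scoped ENNReal

/-- JOB COD (100 lines): the coding map `π ω = ∑' j, r ^ j • (v (ω j), a (ω j))`.  Continuous
(`continuous_tsum`; `Fin m` is discrete).  `π ω = r ^ n • π (shift ω) + (X v r n ω, X a r n ω)`, and
`π ω ∈ Γ`, being the limit of `r ^ n • z₀ + (X v r n ω, X a r n ω) ∈ Γ` (`Γ` closed and invariant). -/
def S_COD : Prop :=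
  ∀ (d m : ℕ) (r : ℝ) (v a : Fin m → E d) (Γ : Set (E d × E d)), 0 < r → r < 1 → Γ.Nonempty →
    IsCompact Γ → (∀ k, ∀ z ∈ Γ, r • z + (v k, a k) ∈ Γ) →
    ∃ π : (ℕ → Fin m) → E d × E d, Continuous π ∧ ∀ (n : ℕ) (ω : ℕ → Fin m), ∃ z ∈ Γ,
      π ω = r ^ n • z + (X v r n (fun j : Fin n => ω j), X a r n (fun j : Fin n => ω j))

/-- JOB MD2 (60 lines), adapt `V5helper69.KP.MD`: mass distribution for an outer measure. -/
def S_MD2 : Prop :=
  ∀ (d : ℕ) (Ω : Type) (ν : OuterMeasure Ω) (A : Set Ω) (Ψ : Ω → E d) (s C δ₀ : ℝ), 0 ≤ s →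
    0 < δ₀ → 0 ≤ C →
    (∀ (U : Set (E d)) (δ : ℝ), 0 < δ → δ ≤ δ₀ → (∀ x ∈ U, ∀ y ∈ U, dist x y ≤ δ) →
      ν (A ∩ Ψ ⁻¹' U) ≤ ENNReal.ofReal (C * δ ^ s)) →
    ν A ≠ 0 → ENNReal.ofReal s ≤ dimH (Ψ '' A)

/-- JOB PRO (50 lines): the uniform product measure (`Measure.infinitePi`). -/
def S_PRO : Prop :=
  ∀ m : ℕ, 0 < m → ∃ P : Measure (ℕ → Fin m), IsProbabilityMeasure P ∧
    ∀ (n : ℕ) (u : Fin n → Fin m), P {ω | ∀ j : Fin n, ω j = u j} = ENNReal.ofReal (((m : ℝ)⁻¹) ^ n)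

/-- JOB GOOD2 (150 lines; `t_GOOD2 : S_MD2 → S_GOOD2`), adapt `V5helper91.KP.GOOD` from the slopes with
Lebesgue measure to the codes with the product measure.  `s = log m / log r⁻¹ - log A / (l log r⁻¹)`
(`s ≤ 0` trivial).  `B_k` = the union of the cylinders of the bad words `u : Fin (k * l) → Fin m`,
`P B_k ≤ 2 ρ ^ k`; `Ω'' = Ω' \ ⋃ k ≥ k₀, B_k` has positive outer measure.  For
`r ^ ((k + 1) l) < δ ≤ r ^ (k l)` and `U` of diameter `≤ δ`, the words `ω|(k l)` of the codes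
`ω ∈ Ω'' ∩ Ψ⁻¹ U`, `Ψ ω = (π ω).2 + t (π ω).1 = r ^ (k l) (z.2 + t z.1) + X (ct v a t) r (k l) (ω|(k l))`, are not
bad and mutually within `M r ^ (k l)`, so there are at most `A ^ k` of them and
`P (Ω'' ∩ Ψ⁻¹ U) ≤ A ^ k m ^ (- k l) = (r ^ (k l)) ^ s ≤ r ^ (- l s) δ ^ s`. -/
def S_GOOD2 : Prop :=
  ∀ (d m : ℕ) (v a : Fin m → E d) (r : ℝ) (Γ : Set (E d × E d)) (π : (ℕ → Fin m) → E d × E d)
    (P : Measure (ℕ → Fin m)) [IsProbabilityMeasure P], 0 < m → 0 < r → r < 1 →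
    (∀ (n : ℕ) (ω : ℕ → Fin m), ∃ z ∈ Γ,
      π ω = r ^ n • z + (X v r n (fun j : Fin n => ω j), X a r n (fun j : Fin n => ω j))) →
    (∀ (n : ℕ) (u : Fin n → Fin m),
      P {ω | ∀ j : Fin n, ω j = u j} = ENNReal.ofReal (((m : ℝ)⁻¹) ^ n)) →
    ∀ (t R M A ρ : ℝ) (l : ℕ), 1 ≤ l → 1 ≤ A → 0 < ρ → ρ < 1 → (∀ z ∈ Γ, ‖z.2 + t • z.1‖ ≤ R) →
    2 * R + 1 ≤ M →
    (∀ k : ℕ, (Nat.card {u : Fin (k * l) → Fin m // A ^ k < (Nat.card {u' : Fin (k * l) → Fin m //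
        ‖X (ct v a t) r (k * l) u' - X (ct v a t) r (k * l) u‖ ≤ M * r ^ (k * l)} : ℝ)} : ℝ) ≤
      2 * ρ ^ k * (m : ℝ) ^ (k * l)) →
    ∀ Ω' : Set (ℕ → Fin m), P Ω' ≠ 0 →
      ENNReal.ofReal (Real.log m / Real.log r⁻¹ - Real.log A / (l * Real.log r⁻¹)) ≤
        dimH ((fun ω => (π ω).2 + t • (π ω).1) '' Ω')

/-- JOB FUB2 (60 lines): Fubini for `P` and the length; the set of `(ω, t)` with
`pt t ((π ω).2 + t • (π ω).1) ∈ K` is measurable (`π` continuous, `K` measurable) and not null. -/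
def S_FUB2 : Prop :=
  ∀ (d m : ℕ) (π : (ℕ → Fin m) → E d × E d) (P : Measure (ℕ → Fin m)) [IsProbabilityMeasure P]
    (K : Set (E (d + 1))), Continuous π → MeasurableSet K →
    (∀ ω, volume {t : ℝ | pt t ((π ω).2 + t • (π ω).1) ∈ K} ≠ 0) →
    volume {t : ℝ | P {ω | pt t ((π ω).2 + t • (π ω).1) ∈ K} ≠ 0} ≠ 0

end Pool.Agent.V5helper28.KP
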