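import Pool.Agent.V5helper28.KP.Stm
import Pool.Agent.V5helper28.KP.Stm2
import Pool.Agent.V5helper28.KP.Stm3
import Pool.Agent.V5helper28.KP.Asm

/-!
# Assembly of project KP, arbitrary sets meeting the lines in positive length
-/

set_option autoImplicit false

namespace Pool.Agent.V5helper28.KP

open MeasureTheory Set
open Pool.Agent.V5helper28.SSK
open scoped ENNReal

theorem good_dim2 (hPC : S_PC) (hPK : S_PK) (hTL : S_TL) (hBLK : S_BLK) (hGOOD : S_GOOD2)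
    {d m : ℕ} (hm0' : 0 < m) (v a : Fin m → E d) {r : ℝ} {Γ : Set (E d × E d)}
    (hr : 0 < r) (hr1 : r < 1) (hc : IsCompact Γ) (π : (ℕ → Fin m) → E d × E d)
    (P : Measure (ℕ → Fin m)) [IsProbabilityMeasure P]
    (hπ : ∀ (n : ℕ) (ω : ℕ → Fin m), ∃ z ∈ Γ,
      π ω = r ^ n • z + (X v r n (fun j : Fin n => ω j), X a r n (fun j : Fin n => ω j)))
    (hP : ∀ (n : ℕ) (u : Fin n → Fin m),
      P {ω | ∀ j : Fin n, ω j = u j} = ENNReal.ofReal (((m : ℝ)⁻¹) ^ n)) (t : ℝ)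
    (hent : ∀ η : ℝ, 0 < η → ∀ n₀ : ℕ, ∃ n : ℕ, n₀ ≤ n ∧
      n * (Real.log (Fintype.card (Fin m)) + η * Real.log r) < he (ct v a t) r n)
    {Ω' : Set (ℕ → Fin m)} (hpos : P Ω' ≠ 0) :
    ENNReal.ofReal (Real.log m / Real.log r⁻¹) ≤
      dimH ((fun ω => (π ω).2 + t • (π ω).1) '' Ω') := by
  classical
  have : Nonempty (Fin m) := ⟨⟨0, hm0'⟩⟩
  obtain ⟨c, hcdef⟩ : ∃ c : Fin m → E d, c = ct v a t := ⟨_, rfl⟩
  obtain ⟨lam, hlam⟩ : ∃ lam : ℝ, lam = Real.log r⁻¹ := ⟨_, rfl⟩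
  have hlam0 : 0 < lam := by
    rw [hlam]
    exact Real.log_pos ((one_lt_inv₀ hr).2 hr1)
  have hlogr : Real.log r = -lam := by rw [hlam, Real.log_inv, neg_neg]
  -- bounds
  obtain ⟨R₀, hR₀⟩ := (hc.image (f := fun z : E d × E d => z.2 + t • z.1)
    (by fun_prop)).isBounded.exists_norm_le
  obtain ⟨R, hRdef⟩ : ∃ R : ℝ, R = max R₀ 0 := ⟨_, rfl⟩
  have hR0 : 0 ≤ R := by rw [hRdef]; exact le_max_right _ _
  have hR : ∀ z ∈ Γ, ‖z.2 + t • z.1‖ ≤ R := fun z hz =>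
    (hR₀ _ (mem_image_of_mem (fun z : E d × E d => z.2 + t • z.1) hz)).trans
      (by rw [hRdef]; exact le_max_left _ _)
  obtain ⟨R₁, hR₁, hX⟩ : ∃ R₁ : ℝ, 0 ≤ R₁ ∧ ∀ (k : ℕ) (ω : Fin k → Fin m), ‖X c r k ω‖ ≤ R₁ := by
    have h0 : 0 ≤ ∑ i, ‖c i‖ := Finset.sum_nonneg fun _ _ => norm_nonneg _
    refine ⟨(∑ i, ‖c i‖) / (1 - r), div_nonneg h0 (by linarith), fun k ω => ?_⟩
    exact norm_X_le hr hr1 h0 (fun i => Finset.single_le_sum (f := fun i => ‖c i‖)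
      (fun _ _ => norm_nonneg _) (Finset.mem_univ i)) k ω
  obtain ⟨M, hMdef⟩ : ∃ M : ℝ, M = max (2 * R + 1) (2 * R₁ / (1 - r)) := ⟨_, rfl⟩
  have hM1 : 2 * R + 1 ≤ M := by rw [hMdef]; exact le_max_left _ _
  have hM2 : 2 * R₁ ≤ M * (1 - r) := by
    have : 2 * R₁ / (1 - r) ≤ M := by rw [hMdef]; exact le_max_right _ _
    rwa [div_le_iff₀ (by linarith)] at this
  have hM0 : 0 ≤ M := by linarith
  obtain ⟨C, hCdef⟩ : ∃ C : ℝ, C = (2 * M + 3) ^ d := ⟨_, rfl⟩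
  have hC1 : 1 ≤ C := by
    rw [hCdef]
    exact one_le_pow₀ (by linarith)
  obtain ⟨D, hD⟩ : ∃ D : ℝ, D = Real.log m / lam := ⟨_, rfl⟩
  rw [← hlam, ← hD]
  -- it suffices to prove `ofReal s ≤ dimH` for `s < D`
  refine le_of_forall_lt fun y hy => ?_
  obtain ⟨s, hys, hsd⟩ : ∃ s : ℝ, y < ENNReal.ofReal s ∧ s < D := by
    obtain ⟨z, hyz, hzd⟩ := exists_between hy
    have hzt : z ≠ ∞ := (hzd.trans ENNReal.ofReal_lt_top).ne
    exact ⟨z.toReal, by rwa [ENNReal.ofReal_toReal hzt],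
      (ENNReal.lt_ofReal_iff_toReal_lt hzt).1 hzd⟩
  refine lt_of_lt_of_le hys ?_
  have hε : 0 < D - s := by linarith
  obtain ⟨n₀, hn₀⟩ := exists_nat_ge (2 * (Real.log (2 * C) + 1) / (lam * (D - s)))
  rw [div_le_iff₀ (by positivity)] at hn₀
  obtain ⟨l, hl, hhe⟩ := hent ((D - s) / 2) (by linarith) (max n₀ 1)
  have hl1 : 1 ≤ l := (le_max_right _ _).trans hl
  have hl0 : (n₀ : ℝ) ≤ l := by exact_mod_cast (le_max_left _ _).trans hl
  have hlR : (0 : ℝ) < l := by exact_mod_cast hl1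
  rw [← hcdef] at hhe
  set f : (Fin l → Fin m) → ℝ :=
    nf Finset.univ (fun u : Fin l → Fin m => cl r l (X c r l u)) with hf
  have hf1 : ∀ u, 1 ≤ f u := fun u => one_le_nf (Finset.mem_univ u)
  have hf0 : ∀ u, 0 < f u := fun u => lt_of_lt_of_le one_pos (hf1 u)
  obtain ⟨mm, hm⟩ : ∃ mm : ℝ, mm = (∑ u, Real.log (f u)) / Fintype.card (Fin l → Fin m) :=
    ⟨_, rfl⟩
  have hm0 : 0 ≤ mm := by
    rw [hm]
    exact div_nonneg (Finset.sum_nonneg fun u _ => Real.log_nonneg (hf1 u)) (Nat.cast_nonneg _)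
  have hmle : mm ≤ (D - s) / 2 * lam * l := by
    have h1 := he_eq_mean c r l
    rw [← hf, ← hm] at h1
    rw [h1, hlogr] at hhe
    nlinarith
  have hrl0 : 0 < r ^ l := pow_pos hr l
  have hrl1 : r ^ l < 1 := pow_lt_one₀ hr.le hr1 (by omega)
  have hrlr : r ^ l ≤ r := by
    calc r ^ l ≤ r ^ 1 := pow_le_pow_of_le_one hr.le hr1.le hl1
      _ = r := pow_one r
  have hpc := fun z => hPC d (Fin l → Fin m) r l (X c r l) M z hr hM0
  rw [← hCdef] at hpc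
  have hpk := hPK d (Fin l → Fin m) (X c r l) f (r ^ l) R₁ M
    (C * Fintype.card (Fin l → Fin m)) hrl0 hrl1
    (hX l) (hM2.trans (mul_le_mul_of_nonneg_left (by linarith) hM0)) hf0 hpc
  obtain ⟨ρ, hρ0, hρ1, htl⟩ := hTL (Fin l → Fin m) f C 1
    (fun k ω => (Nat.card {ω' : Fin k → (Fin l → Fin m) //
      ‖(∑ j : Fin k, (r ^ l) ^ (j : ℕ) • X c r l (ω' j)) -
        ∑ j : Fin k, (r ^ l) ^ (j : ℕ) • X c r l (ω j)‖ ≤ M * (r ^ l) ^ k} : ℝ))
    (by linarith) one_pos hf0 (fun k ω => Nat.cast_nonneg _) hpk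
  rw [← hm] at htl
  obtain ⟨A, hA⟩ : ∃ A : ℝ, A = 2 * C * Real.exp (mm + 1) := ⟨_, rfl⟩
  rw [← hA] at htl
  have hA1 : 1 ≤ A := by
    rw [hA]
    have h1 : 1 ≤ Real.exp (mm + 1) := Real.one_le_exp (by linarith)
    nlinarith
  have hg := hGOOD d m v a r Γ π P hm0' hr hr1 hπ hP t R M A ρ l hl1 hA1 hρ0 hρ1 hR hM1
    (by
      intro k
      rw [← hcdef]
      obtain ⟨e, he⟩ := hBLK d (Fin m) c r k l
      have hpow : (r ^ l) ^ k = r ^ (k * l) := by rw [← pow_mul, mul_comm]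
      have h1 := htl k
      have h2 : (Fintype.card (Fin l → Fin m) : ℝ) ^ k = (m : ℝ) ^ (k * l) := by
        rw [Fintype.card_fun, Fintype.card_fin, Fintype.card_fin]
        push_cast
        rw [← pow_mul, mul_comm]
      rw [h2] at h1
      refine le_trans (le_of_eq ?_) h1
      congr 1
      refine Nat.card_congr (Equiv.subtypeEquiv e.symm fun u => ?_)
      have h3 : Nat.card {u' : Fin (k * l) → Fin m // ‖X c r (k * l) u' - X c r (k * l) u‖ ≤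
          M * r ^ (k * l)} = Nat.card {ω' : Fin k → (Fin l → Fin m) //
          ‖(∑ j : Fin k, (r ^ l) ^ (j : ℕ) • X c r l (ω' j)) -
            ∑ j : Fin k, (r ^ l) ^ (j : ℕ) • X c r l (e.symm u j)‖ ≤ M * (r ^ l) ^ k} := by
        refine Nat.card_congr (Equiv.subtypeEquiv e.symm fun u' => ?_)
        rw [← he (e.symm u'), ← he (e.symm u), Equiv.apply_symm_apply, Equiv.apply_symm_apply,
          hpow]
      rw [h3]) Ω' hpos
  refine le_trans (ENNReal.ofReal_le_ofReal ?_) hg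
  have hlogA : Real.log A = Real.log (2 * C) + (mm + 1) := by
    rw [hA, Real.log_mul (by positivity) (Real.exp_pos _).ne', Real.log_exp]
  rw [← hlam, hlogA, ← hD]
  have h5 : (Real.log (2 * C) + (mm + 1)) / (l * lam) ≤ D - s := by
    rw [div_le_iff₀ (by positivity)]
    have h6 : (n₀ : ℝ) * (lam * (D - s)) ≤ l * (lam * (D - s)) :=
      mul_le_mul_of_nonneg_right hl0 (by positivity)
    nlinarith
  linarith

/-- `Γ` has homogeneous subsystems with separated slopes and almost full dimension -/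
def HasSub {d : ℕ} (Γ : Set (E d × E d)) : Prop :=
  ∀ s : ℝ, 0 < s → ENNReal.ofReal s < dimH (Prod.fst '' Γ) →
    ∃ (m : ℕ) (r κ : ℝ) (v a : Fin m → E d), 0 < m ∧ 0 < r ∧ r < 1 ∧ 0 < κ ∧
      (∀ k, ∀ z ∈ Γ, r • z + (v k, a k) ∈ Γ) ∧ Sep v r κ ∧ s ≤ Real.log m / Real.log r⁻¹

theorem key (hA2 : S_A2) (hW : JobW) (hPC : S_PC) (hPK : S_PK) (hTL : S_TL) (hBLK : S_BLK)
    (hGOOD : S_GOOD2) (hCOD : S_COD) (hPRO : S_PRO) {d : ℕ} {Γ : Set (E d × E d)}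
    (hne : Γ.Nonempty) (hc : IsCompact Γ) (hsub : HasSub Γ) {s : ℝ} (hs : 0 < s)
    (hsd : ENNReal.ofReal s < dimH (Prod.fst '' Γ)) :
    ∃ Z : Set ℝ, dimH Z = 0 ∧ ∃ (m : ℕ) (π : (ℕ → Fin m) → E d × E d)
      (P : Measure (ℕ → Fin m)), IsProbabilityMeasure P ∧ Continuous π ∧ (∀ ω, π ω ∈ Γ) ∧
      ∀ t, t ∉ Z → ∀ Ω' : Set (ℕ → Fin m), P Ω' ≠ 0 →
        ENNReal.ofReal s ≤ dimH ((fun ω => (π ω).2 + t • (π ω).1) '' Ω') := by
  classical
  obtain ⟨m, r, κ, v, a, hm, hr, hr1, hκ, hinv, hsep, hsm⟩ := hsub s hs hsd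
  have : Nonempty (Fin m) := ⟨⟨0, hm⟩⟩
  obtain ⟨π, hπc, hπ⟩ := hCOD d m r v a Γ hr hr1 hne hc hinv
  obtain ⟨P, hP1, hP⟩ := hPRO m hm
  obtain ⟨Z, hZ⟩ : ∃ Z : Set ℝ, Z = ⋃ k : ℕ, {t : ℝ | ∀ q : ℕ, ∃ n₁ : ℕ, ∀ n : ℕ, n₁ ≤ n →
      Clump (ct v a t) r (1 / ((k : ℝ) + 1) / 4) q n} := ⟨_, rfl⟩
  have hlogr : Real.log r < 0 := Real.log_neg hr hr1
  refine ⟨Z, ?_, m, π, P, hP1, hπc, ?_, ?_⟩
  · rw [hZ, dimH_iUnion]
    simp only [ENNReal.iSup_eq_zero]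
    intro k
    exact hW d (Fin m) v a r κ _ hr hr1 hκ (by positivity) hsep
  · intro ω
    obtain ⟨z, hz, h⟩ := hπ 0 ω
    have h0 : r ^ 0 • z + (X v r 0 (fun j : Fin 0 => ω j), X a r 0 (fun j : Fin 0 => ω j)) = z := by
      refine Prod.ext ?_ ?_ <;> simp [X]
    rw [h, h0]
    exact hz
  · intro t ht Ω' hpos
    refine (ENNReal.ofReal_le_ofReal hsm).trans
      (good_dim2 hPC hPK hTL hBLK hGOOD hm v a hr hr1 hc π P hπ hP t ?_ hpos)
    intro η hη n₀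
    by_contra hcon
    push Not at hcon
    obtain ⟨k, hk⟩ := exists_nat_one_div_lt hη
    have hk0 : (0 : ℝ) < 1 / ((k : ℝ) + 1) := by positivity
    refine ht ?_
    rw [hZ]
    refine mem_iUnion.2 ⟨k, ?_⟩
    refine hA2 d (Fin m) (ct v a t) r (1 / ((k : ℝ) + 1)) 0 n₀ hr hr1 hk0 fun n hn => ?_
    refine (hcon n hn).trans ?_
    rw [add_zero]
    refine mul_le_mul_of_nonneg_left ?_ (Nat.cast_nonneg _)
    nlinarith

theorem volume_zero_of_dimH {Z : Set ℝ} (hZ : dimH Z = 0) : volume Z = 0 := by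
  rw [← hausdorffMeasure_real]
  refine hausdorffMeasure_of_dimH_lt (d := 1) ?_
  rw [hZ]
  simp

/-- slices and arbitrary sets meeting the lines in positive length -/
theorem kak (hA2 : S_A2) (hW : JobW) (hPC : S_PC) (hPK : S_PK) (hTL : S_TL) (hBLK : S_BLK)
    (hGOOD : S_GOOD2) (hCOD : S_COD) (hPRO : S_PRO) (hFUB : S_FUB2) (hHULL : S_HULL)
    (hS : JobS) {d : ℕ} {Γ : Set (E d × E d)}
    (hne : Γ.Nonempty) (hc : IsCompact Γ) (hsub : HasSub Γ) :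
    (∃ Z : Set ℝ, dimH Z = 0 ∧ ∀ t, t ∉ Z →
      dimH (Prod.fst '' Γ) ≤ dimH ((fun z : E d × E d => z.2 + t • z.1) '' Γ)) ∧
    ∀ K : Set (E (d + 1)),
      (∀ z ∈ Γ, volume {t : ℝ | pt t (z.2 + t • z.1) ∈ K} ≠ 0) →
      dimH (Prod.fst '' Γ) + 1 ≤ dimH K ∧ (dimH (Prod.fst '' Γ) = d → dimH K = d + 1) := by
  classical
  have hkey : ∀ s : ℝ, 0 < s → ENNReal.ofReal s < dimH (Prod.fst '' Γ) →
      ∃ Z : Set ℝ, dimH Z = 0 ∧ ∃ (m : ℕ) (π : (ℕ → Fin m) → E d × E d)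
      (P : Measure (ℕ → Fin m)), IsProbabilityMeasure P ∧ Continuous π ∧ (∀ ω, π ω ∈ Γ) ∧
      ∀ t, t ∉ Z → ∀ Ω' : Set (ℕ → Fin m), P Ω' ≠ 0 →
        ENNReal.ofReal s ≤ dimH ((fun ω => (π ω).2 + t • (π ω).1) '' Ω') := fun s hs hsd =>
    key hA2 hW hPC hPK hTL hBLK hGOOD hCOD hPRO hne hc hsub hs hsd
  constructor
  · have h1 : ∀ s : ℚ, ∃ Z : Set ℝ, dimH Z = 0 ∧ (0 < s →
        ENNReal.ofReal s < dimH (Prod.fst '' Γ) → ∀ t, t ∉ Z →
        ENNReal.ofReal s ≤ dimH ((fun z : E d × E d => z.2 + t • z.1) '' Γ)) := by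
      intro s
      by_cases hs : 0 < s ∧ ENNReal.ofReal s < dimH (Prod.fst '' Γ)
      · obtain ⟨Z, hZ0, m, π, P, hP, -, hπΓ, hdim⟩ := hkey s (by exact_mod_cast hs.1) hs.2
        refine ⟨Z, hZ0, fun _ _ t ht => ?_⟩
        refine (hdim t ht univ (by rw [measure_univ]; exact one_ne_zero)).trans (dimH_mono ?_)
        rintro _ ⟨ω, _, rfl⟩
        exact ⟨π ω, hπΓ ω, rfl⟩
      · exact ⟨∅, dimH_empty, fun h1 h2 => absurd ⟨h1, h2⟩ hs⟩
    choose Z hZ0 hZ using h1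
    refine ⟨⋃ s : ℚ, Z s, ?_, fun t ht => ?_⟩
    · rw [dimH_iUnion]
      simp only [ENNReal.iSup_eq_zero]
      exact hZ0
    · rw [mem_iUnion] at ht
      push Not at ht
      refine le_of_forall_lt fun x hx => ?_
      obtain ⟨q, hq0, hxq, hq⟩ := ENNReal.lt_iff_exists_rat_btwn.1 hx
      have hq' : (0 : ℚ) < q := by
        rcases hq0.lt_or_eq with h | h
        · exact h
        · exfalso
          rw [← h] at hxq
          simp at hxq
      have h1 : ENNReal.ofReal (q : ℝ) < dimH (Prod.fst '' Γ) := hq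
      exact lt_of_lt_of_le hxq (hZ q hq' h1 t (ht q))
  · intro K hK
    obtain ⟨K', hKK', hK'm, hK'd⟩ := hHULL (d + 1) K
    have hK' : ∀ z ∈ Γ, volume {t : ℝ | pt t (z.2 + t • z.1) ∈ K'} ≠ 0 := fun z hz h0 =>
      hK z hz (measure_mono_null (fun t ht => hKK' ht) h0)
    have h1 : 1 ≤ dimH K' := by
      obtain ⟨z, hz⟩ := hne
      have h2 := hS d K' {t : ℝ | pt t (z.2 + t • z.1) ∈ K'} 0
        (pos_iff_ne_zero.2 (hK' z hz)) fun t ht => ⟨⟨_, ht⟩, zero_le⟩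
      rwa [zero_add] at h2
    have h2 : ∀ s : ℝ, 0 < s → ENNReal.ofReal s < dimH (Prod.fst '' Γ) →
        ENNReal.ofReal s + 1 ≤ dimH K' := by
      intro s hs hsd
      obtain ⟨Z, hZ0, m, π, P, hP, hπc, hπΓ, hdim⟩ := hkey s hs hsd
      have h3 := hFUB d m π P K' hπc hK'm fun ω => hK' _ (hπΓ ω)
      refine hS d K' ({t : ℝ | P {ω | pt t ((π ω).2 + t • (π ω).1) ∈ K'} ≠ 0} \ Z) _ ?_ ?_
      · rw [measure_sdiff_null (volume_zero_of_dimH hZ0)]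
        exact pos_iff_ne_zero.2 h3
      · rintro t ⟨ht, htZ⟩
        have hsub : (fun ω => (π ω).2 + t • (π ω).1) ''
            {ω | pt t ((π ω).2 + t • (π ω).1) ∈ K'} ⊆ {y : E d | pt t y ∈ K'} := by
          rintro _ ⟨ω, hω, rfl⟩
          exact hω
        refine ⟨?_, (hdim t htZ _ ht).trans (dimH_mono hsub)⟩
        have hne' : {ω | pt t ((π ω).2 + t • (π ω).1) ∈ K'}.Nonempty := by
          rw [nonempty_iff_ne_empty]
          intro h0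
          exact ht (by rw [h0]; exact measure_empty)
        obtain ⟨ω, hω⟩ := hne'
        exact ⟨_, hω⟩
    have h3 : dimH (Prod.fst '' Γ) + 1 ≤ dimH K' := by
      by_contra hcon
      push Not at hcon
      have h4 : dimH K' - 1 < dimH (Prod.fst '' Γ) :=
        (ENNReal.sub_lt_iff_lt_right ENNReal.one_ne_top h1).2 hcon
      obtain ⟨q, hq0, hxq, hq⟩ := ENNReal.lt_iff_exists_rat_btwn.1 h4
      have hq' : (0 : ℝ) < (q : ℝ) := by
        by_contra h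
        push Not at h
        have h5 : ENNReal.ofReal (q : ℝ) = 0 := ENNReal.ofReal_of_nonpos h
        have h6 : dimH K' - 1 < ENNReal.ofReal (q : ℝ) := hxq
        rw [h5] at h6
        exact absurd h6 not_lt_zero
      have h5 := h2 q hq' hq
      have h6 : ENNReal.ofReal (q : ℝ) ≤ dimH K' - 1 :=
        ENNReal.le_sub_of_add_le_right ENNReal.one_ne_top h5
      exact absurd (lt_of_lt_of_le hxq h6) (lt_irrefl _)
    rw [hK'd] at h3
    refine ⟨h3, fun hd => le_antisymm ?_ (by rw [hd] at h3; exact h3)⟩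
    calc dimH K ≤ dimH (univ : Set (E (d + 1))) := dimH_mono (subset_univ _)
      _ = d + 1 := by
        rw [Real.dimH_univ_eq_finrank]
        simp

end Pool.Agent.V5helper28.KP
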