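import Pool.Agent.V5helper28.SSK.Cell

/-!
# Project KP, fourth part: packing
-/

set_option autoImplicit false

namespace Pool.Agent.V5helper28.KP

open MeasureTheory Set
open Pool.Agent.V5helper28.SSK
open scoped ENNReal

/-- JOB PAC (80 lines): `κ r ^ n`-separated points in a ball of radius `M r ^ n`.  For instance by cells:
the points `y u' = r ^ (-n) • X v r n u'` are `κ`-separated; with an integer `q > √d / κ` the map
`u' ↦ fun k => ⌊q * y u' k⌋` is injective (`κ`-separated points have different cells of side `1/q`,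
because a cell has diameter at most `√d / q < κ`) and, for `‖y u' - y u‖ ≤ M`, takes values in a box with
at most `(2 q M + 3) ^ d` elements. -/
def S_PAC : Prop :=
  ∀ (d m : ℕ) (v : Fin m → E d) (r κ M : ℝ), 0 < r → r < 1 → 0 < κ → 0 ≤ M → Sep v r κ →
    ∃ C : ℝ, 1 ≤ C ∧ ∀ (n : ℕ) (u : Fin n → Fin m),
      (Nat.card {u' : Fin n → Fin m // ‖X v r n u' - X v r n u‖ ≤ M * r ^ n} : ℝ) ≤ C

end Pool.Agent.V5helper28.KP
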