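import Pool.Agent.V5helper28.KP.Asm2
import Pool.Agent.V5helper28.KP.Stm4

/-!
# Assembly of project KP, with an exceptional set of lines of smaller dimension
-/

set_option autoImplicit false

namespace Pool.Agent.V5helper28.KP

open MeasureTheory Set
open Pool.Agent.V5helper28.SSK
open scoped ENNReal

theorem fub3 {d m : ℕ} {π : (ℕ → Fin m) → E d × E d} {P : Measure (ℕ → Fin m)}
    [IsProbabilityMeasure P] {K : Set (E (d + 1))} (hπ : Continuous π) (hK : MeasurableSet K)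
    (hpos : P {ω | volume {t : ℝ | pt t ((π ω).2 + t • (π ω).1) ∈ K} = 0} = 0) :
    volume {t : ℝ | P {ω | pt t ((π ω).2 + t • (π ω).1) ∈ K} ≠ 0} ≠ 0 := by
  intro hcon
  have hptc : Continuous fun q : (E d × E d) × ℝ => pt q.2 (q.1.2 + q.2 • q.1.1) := by
    unfold pt
    refine (PiLp.continuous_toLp 2 _).comp (continuous_pi fun i => ?_)
    refine Fin.cases ?_ (fun j => ?_) i
    · simp only [Fin.cons_zero]
      exact continuous_snd
    · simp only [Fin.cons_succ]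
      have h : Continuous fun q : (E d × E d) × ℝ => q.1.2 + q.2 • q.1.1 := by fun_prop
      exact (continuous_apply j).comp ((PiLp.continuous_ofLp 2 _).comp h)
  have hc : Continuous fun q : (ℕ → Fin m) × ℝ => pt q.2 ((π q.1).2 + q.2 • (π q.1).1) :=
    hptc.comp ((hπ.comp continuous_fst).prodMk continuous_snd)
  let S : Set ((ℕ → Fin m) × ℝ) := {q | pt q.2 ((π q.1).2 + q.2 • (π q.1).1) ∈ K}
  have hS : MeasurableSet S := hc.measurable hK
  have h1 : (volume.prod P : Measure (ℝ × (ℕ → Fin m))) (Prod.swap ⁻¹' S) = 0 := by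
    rw [Measure.measure_prod_null (measurable_swap hS)]
    have h2 : ∀ᵐ t : ℝ, P {ω | pt t ((π ω).2 + t • (π ω).1) ∈ K} = 0 := by
      rw [ae_iff]
      exact hcon
    exact h2
  have h3 : (P.prod volume : Measure ((ℕ → Fin m) × ℝ)) S = 0 := by
    rw [← Measure.prod_swap, Measure.map_apply measurable_swap hS]
    exact h1
  rw [Measure.measure_prod_null hS] at h3
  have h4 : ∀ᵐ ω ∂P, ¬ (volume {t : ℝ | pt t ((π ω).2 + t • (π ω).1) ∈ K} = 0) := by
    rw [ae_iff]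
    simpa using hpos
  obtain ⟨ω, hω, hω'⟩ := (h3.and h4).exists
  exact hω' hω

/-- sets of codes whose slopes have small dimension are null -/
theorem null_of_dim (hGOOD : S_GOOD2) (hPAC : S_PAC) {d m : ℕ} (hm : 0 < m) {v a : Fin m → E d}
    {r κ : ℝ} {Γ : Set (E d × E d)} (hr : 0 < r) (hr1 : r < 1) (hκ : 0 < κ) (hc : IsCompact Γ)
    {π : (ℕ → Fin m) → E d × E d} {P : Measure (ℕ → Fin m)} [IsProbabilityMeasure P]
    (hπ : ∀ (n : ℕ) (ω : ℕ → Fin m), ∃ z ∈ Γ,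
      π ω = r ^ n • z + (X v r n (fun j : Fin n => ω j), X a r n (fun j : Fin n => ω j)))
    (hP : ∀ (n : ℕ) (u : Fin n → Fin m),
      P {ω | ∀ j : Fin n, ω j = u j} = ENNReal.ofReal (((m : ℝ)⁻¹) ^ n))
    (hsep : Sep v r κ) {N : Set (E d)}
    (hN : dimH N < ENNReal.ofReal (Real.log m / Real.log r⁻¹)) :
    P {ω | (π ω).1 ∈ N} = 0 := by
  classical
  by_contra hpos
  have hne : Nonempty (Fin m) := ⟨⟨0, hm⟩⟩
  obtain ⟨lam, hlam⟩ : ∃ lam : ℝ, lam = Real.log r⁻¹ := ⟨_, rfl⟩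
  have hlam0 : 0 < lam := by
    rw [hlam]
    exact Real.log_pos ((one_lt_inv₀ hr).2 hr1)
  obtain ⟨R₀, hR₀⟩ := (hc.image (f := fun z : E d × E d => z.1)
    continuous_fst).isBounded.exists_norm_le
  obtain ⟨R, hRdef⟩ : ∃ R : ℝ, R = max R₀ 0 := ⟨_, rfl⟩
  have hR0 : 0 ≤ R := by rw [hRdef]; exact le_max_right _ _
  have hR : ∀ z ∈ Γ, ‖z.1‖ ≤ R := fun z hz =>
    (hR₀ _ (mem_image_of_mem (fun z : E d × E d => z.1) hz)).trans
      (by rw [hRdef]; exact le_max_left _ _)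
  obtain ⟨C, hC1, hC⟩ := hPAC d m v r κ (2 * R + 1) hr hr1 hκ (by linarith) hsep
  obtain ⟨D, hD⟩ : ∃ D : ℝ, D = Real.log m / Real.log r⁻¹ := ⟨_, rfl⟩
  rw [← hD] at hN
  have hX0 : ∀ (n : ℕ) (u : Fin n → Fin m), X (fun _ : Fin m => (0 : E d)) r n u = 0 := by
    intro n u
    simp [X]
  have hct : ct (fun _ : Fin m => (0 : E d)) v 0 = v := by
    funext i
    simp [ct]
  have hdim : ∀ l : ℕ, 1 ≤ l → ENNReal.ofReal (D - Real.log C / (l * lam)) ≤ dimH N := by
    intro l hl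
    have h1 := hGOOD d m (fun _ => 0) v r ((fun z : E d × E d => ((0 : E d), z.1)) '' Γ)
      (fun ω => ((0 : E d), (π ω).1)) P hm hr hr1
      (by
        intro n ω
        obtain ⟨z, hz, h⟩ := hπ n ω
        refine ⟨((0 : E d), z.1), ⟨z, hz, rfl⟩, ?_⟩
        rw [hX0, h]
        refine Prod.ext ?_ ?_ <;> simp) hP 0 R (2 * R + 1) C (1 / 2) l hl hC1 (by norm_num)
      (by norm_num)
      (by
        rintro _ ⟨z, hz, rfl⟩
        simpa using hR z hz) le_rfl
      (by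
        intro k
        rw [hct]
        have h2 : Nat.card {u : Fin (k * l) → Fin m // C ^ k < (Nat.card
            {u' : Fin (k * l) → Fin m // ‖X v r (k * l) u' - X v r (k * l) u‖ ≤
              (2 * R + 1) * r ^ (k * l)} : ℝ)} = 0 := by
          have hempty : IsEmpty {u : Fin (k * l) → Fin m // C ^ k < (Nat.card
              {u' : Fin (k * l) → Fin m // ‖X v r (k * l) u' - X v r (k * l) u‖ ≤
                (2 * R + 1) * r ^ (k * l)} : ℝ)} := by
            refine ⟨fun x => ?_⟩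
            obtain ⟨u, hu⟩ := x
            rcases Nat.eq_zero_or_pos k with hk | hk
            · have h3 : Nat.card {u' : Fin (k * l) → Fin m //
                  ‖X v r (k * l) u' - X v r (k * l) u‖ ≤ (2 * R + 1) * r ^ (k * l)} ≤ 1 := by
                refine (Finite.card_subtype_le _).trans ?_
                rw [hk, Nat.card_eq_fintype_card, Fintype.card_fun, Fintype.card_fin,
                  Fintype.card_fin, zero_mul, pow_zero]
              have h4 : C ^ k = 1 := by rw [hk, pow_zero]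
              rw [h4] at hu
              exact absurd hu (not_lt.2 (by exact_mod_cast h3))
            · have h3 : C ≤ C ^ k := by
                calc C = C ^ 1 := (pow_one C).symm
                  _ ≤ C ^ k := pow_le_pow_right₀ hC1 hk
              exact absurd hu (not_lt.2 ((hC (k * l) u).trans h3))
          exact Nat.card_of_isEmpty
        rw [h2]
        simp only [Nat.cast_zero]
        positivity) {ω | (π ω).1 ∈ N} hpos
    rw [← hD, ← hlam] at h1
    refine h1.trans (dimH_mono ?_)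
    rintro _ ⟨ω, hω, rfl⟩
    simpa using hω
  have hNt : dimH N ≠ ∞ := (hN.trans ENNReal.ofReal_lt_top).ne
  have hy : (dimH N).toReal < D := (ENNReal.lt_ofReal_iff_toReal_lt hNt).1 hN
  have hy0 : 0 ≤ (dimH N).toReal := ENNReal.toReal_nonneg
  obtain ⟨l₀, hl₀⟩ := exists_nat_gt (Real.log C / (lam * (D - (dimH N).toReal)))
  rw [div_lt_iff₀ (mul_pos hlam0 (by linarith))] at hl₀
  have hl1 : (1 : ℝ) ≤ ((max l₀ 1 : ℕ) : ℝ) := by exact_mod_cast le_max_right _ _
  have hl2 : (l₀ : ℝ) ≤ ((max l₀ 1 : ℕ) : ℝ) := by exact_mod_cast le_max_left _ _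
  have h5 := hdim (max l₀ 1) (le_max_right _ _)
  have h6 : Real.log C / (((max l₀ 1 : ℕ) : ℝ) * lam) < D - (dimH N).toReal := by
    rw [div_lt_iff₀ (by positivity)]
    have h7 : (l₀ : ℝ) * (lam * (D - (dimH N).toReal)) ≤
        ((max l₀ 1 : ℕ) : ℝ) * (lam * (D - (dimH N).toReal)) :=
      mul_le_mul_of_nonneg_right hl2 (mul_pos hlam0 (by linarith)).le
    nlinarith
  have h7 : dimH N < ENNReal.ofReal (D - Real.log C / (((max l₀ 1 : ℕ) : ℝ) * lam)) :=
    (ENNReal.lt_ofReal_iff_toReal_lt hNt).2 (by linarith)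
  exact absurd (lt_of_lt_of_le h7 h5) (lt_irrefl _)

theorem key3 (hA2 : S_A2) (hW : JobW) (hPC : S_PC) (hPK : S_PK) (hTL : S_TL) (hBLK : S_BLK)
    (hGOOD : S_GOOD2) (hCOD : S_COD) (hPRO : S_PRO) (hPAC : S_PAC) {d : ℕ} {Γ : Set (E d × E d)}
    (hne : Γ.Nonempty) (hc : IsCompact Γ) (hsub : HasSub Γ) {s : ℝ} (hs : 0 < s)
    (hsd : ENNReal.ofReal s < dimH (Prod.fst '' Γ)) :
    ∃ Z : Set ℝ, dimH Z = 0 ∧ ∃ (m : ℕ) (π : (ℕ → Fin m) → E d × E d)
      (P : Measure (ℕ → Fin m)), IsProbabilityMeasure P ∧ Continuous π ∧ (∀ ω, π ω ∈ Γ) ∧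
      (∀ N : Set (E d), dimH N < ENNReal.ofReal s → P {ω | (π ω).1 ∈ N} = 0) ∧
      ∀ t, t ∉ Z → ∀ Ω' : Set (ℕ → Fin m), P Ω' ≠ 0 →
        ENNReal.ofReal s ≤ dimH ((fun ω => (π ω).2 + t • (π ω).1) '' Ω') := by
  classical
  obtain ⟨m, r, κ, v, a, hm, hr, hr1, hκ, hinv, hsep, hsm⟩ := hsub s hs hsd
  have : Nonempty (Fin m) := ⟨⟨0, hm⟩⟩
  obtain ⟨π, hπc, hπ⟩ := hCOD d m r v a Γ hr hr1 hne hc hinv
  obtain ⟨P, hP1, hP⟩ := hPRO m hm
  obtain ⟨Z, hZ⟩ : ∃ Z : Set ℝ, Z = ⋃ k : ℕ, {t : ℝ | ∀ q : ℕ, ∃ n₁ : ℕ, ∀ n : ℕ, n₁ ≤ n →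
      Clump (ct v a t) r (1 / ((k : ℝ) + 1) / 4) q n} := ⟨_, rfl⟩
  have hlogr : Real.log r < 0 := Real.log_neg hr hr1
  refine ⟨Z, ?_, m, π, P, hP1, hπc, ?_, fun N hN => null_of_dim hGOOD hPAC hm hr hr1 hκ hc hπ hP
    hsep (lt_of_lt_of_le hN (ENNReal.ofReal_le_ofReal hsm)), ?_⟩
  · rw [hZ, dimH_iUnion]
    simp only [ENNReal.iSup_eq_zero]
    intro k
    exact hW d (Fin m) v a r κ _ hr hr1 hκ (by positivity) hsep
  · intro ω
    obtain ⟨z, hz, h⟩ := hπ 0 ω
    have h0 : r ^ 0 • z + (X v r 0 (fun j : Fin 0 => ω j), X a r 0 (fun j : Fin 0 => ω j)) = z := by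
      refine Prod.ext ?_ ?_ <;> simp [X]
    rw [h, h0]
    exact hz
  · intro t ht Ω' hpos
    refine (ENNReal.ofReal_le_ofReal hsm).trans
      (good_dim2 hPC hPK hTL hBLK hGOOD hm v a hr hr1 hc π P hπ hP t ?_ hpos)
    intro η hη n₀
    by_contra hcon
    push Not at hcon
    obtain ⟨k, hk⟩ := exists_nat_one_div_lt hη
    have hk0 : (0 : ℝ) < 1 / ((k : ℝ) + 1) := by positivity
    refine ht ?_
    rw [hZ]
    refine mem_iUnion.2 ⟨k, ?_⟩
    refine hA2 d (Fin m) (ct v a t) r (1 / ((k : ℝ) + 1)) 0 n₀ hr hr1 hk0 fun n hn => ?_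
    refine (hcon n hn).trans ?_
    rw [add_zero]
    refine mul_le_mul_of_nonneg_left ?_ (Nat.cast_nonneg _)
    nlinarith

/-- slices and arbitrary sets meeting the lines in positive length -/
theorem kak3 (hA2 : S_A2) (hW : JobW) (hPC : S_PC) (hPK : S_PK) (hTL : S_TL) (hBLK : S_BLK)
    (hGOOD : S_GOOD2) (hCOD : S_COD) (hPRO : S_PRO) (hPAC : S_PAC) (hHULL : S_HULL)
    (hS : JobS) {d : ℕ} {Γ : Set (E d × E d)}
    (hne : Γ.Nonempty) (hc : IsCompact Γ) (hsub : HasSub Γ) :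
    (∃ Z : Set ℝ, dimH Z = 0 ∧ ∀ t, t ∉ Z →
      dimH (Prod.fst '' Γ) ≤ dimH ((fun z : E d × E d => z.2 + t • z.1) '' Γ)) ∧
    ∀ (K : Set (E (d + 1))) (N : Set (E d)), (N.Nonempty → dimH N < dimH (Prod.fst '' Γ)) →
      (∀ z ∈ Γ, z.1 ∉ N → volume {t : ℝ | pt t (z.2 + t • z.1) ∈ K} ≠ 0) →
      dimH (Prod.fst '' Γ) + 1 ≤ dimH K ∧ (dimH (Prod.fst '' Γ) = d → dimH K = d + 1) := by
  classical
  have hkey : ∀ s : ℝ, 0 < s → ENNReal.ofReal s < dimH (Prod.fst '' Γ) →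
      ∃ Z : Set ℝ, dimH Z = 0 ∧ ∃ (m : ℕ) (π : (ℕ → Fin m) → E d × E d)
      (P : Measure (ℕ → Fin m)), IsProbabilityMeasure P ∧ Continuous π ∧ (∀ ω, π ω ∈ Γ) ∧
      (∀ N : Set (E d), dimH N < ENNReal.ofReal s → P {ω | (π ω).1 ∈ N} = 0) ∧
      ∀ t, t ∉ Z → ∀ Ω' : Set (ℕ → Fin m), P Ω' ≠ 0 →
        ENNReal.ofReal s ≤ dimH ((fun ω => (π ω).2 + t • (π ω).1) '' Ω') := fun s hs hsd =>
    key3 hA2 hW hPC hPK hTL hBLK hGOOD hCOD hPRO hPAC hne hc hsub hs hsd
  constructor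
  · have h1 : ∀ s : ℚ, ∃ Z : Set ℝ, dimH Z = 0 ∧ (0 < s →
        ENNReal.ofReal s < dimH (Prod.fst '' Γ) → ∀ t, t ∉ Z →
        ENNReal.ofReal s ≤ dimH ((fun z : E d × E d => z.2 + t • z.1) '' Γ)) := by
      intro s
      by_cases hs : 0 < s ∧ ENNReal.ofReal s < dimH (Prod.fst '' Γ)
      · obtain ⟨Z, hZ0, m, π, P, hP, -, hπΓ, -, hdim⟩ := hkey s (by exact_mod_cast hs.1) hs.2
        refine ⟨Z, hZ0, fun _ _ t ht => ?_⟩
        refine (hdim t ht univ (by rw [measure_univ]; exact one_ne_zero)).trans (dimH_mono ?_)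
        rintro _ ⟨ω, _, rfl⟩
        exact ⟨π ω, hπΓ ω, rfl⟩
      · exact ⟨∅, dimH_empty, fun h1 h2 => absurd ⟨h1, h2⟩ hs⟩
    choose Z hZ0 hZ using h1
    refine ⟨⋃ s : ℚ, Z s, ?_, fun t ht => ?_⟩
    · rw [dimH_iUnion]
      simp only [ENNReal.iSup_eq_zero]
      exact hZ0
    · rw [mem_iUnion] at ht
      push Not at ht
      refine le_of_forall_lt fun x hx => ?_
      obtain ⟨q, hq0, hxq, hq⟩ := ENNReal.lt_iff_exists_rat_btwn.1 hx
      have hq' : (0 : ℚ) < q := by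
        rcases hq0.lt_or_eq with h | h
        · exact h
        · exfalso
          rw [← h] at hxq
          simp at hxq
      have h1 : ENNReal.ofReal (q : ℝ) < dimH (Prod.fst '' Γ) := hq
      exact lt_of_lt_of_le hxq (hZ q hq' h1 t (ht q))
  · intro K N hN hK
    obtain ⟨K', hKK', hK'm, hK'd⟩ := hHULL (d + 1) K
    have hK' : ∀ z ∈ Γ, z.1 ∉ N → volume {t : ℝ | pt t (z.2 + t • z.1) ∈ K'} ≠ 0 :=
      fun z hz hzN h0 => hK z hz hzN (measure_mono_null (fun t ht => hKK' ht) h0)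
    -- a line which is not exceptional
    have hline : ∃ z ∈ Γ, z.1 ∉ N := by
      by_contra hcon
      push Not at hcon
      have h1 : Prod.fst '' Γ ⊆ N := by
        rintro _ ⟨z, hz, rfl⟩
        exact hcon z hz
      have h2 : N.Nonempty := (hne.image Prod.fst).mono h1
      exact absurd (lt_of_lt_of_le (hN h2) (dimH_mono h1)) (lt_irrefl _)
    have h1 : 1 ≤ dimH K' := by
      obtain ⟨z, hz, hzN⟩ := hline
      have h2 := hS d K' {t : ℝ | pt t (z.2 + t • z.1) ∈ K'} 0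
        (pos_iff_ne_zero.2 (hK' z hz hzN)) fun t ht => ⟨⟨_, ht⟩, zero_le⟩
      rwa [zero_add] at h2
    have h2 : ∀ s : ℝ, 0 < s → ENNReal.ofReal s < dimH (Prod.fst '' Γ) →
        dimH N < ENNReal.ofReal s → ENNReal.ofReal s + 1 ≤ dimH K' := by
      intro s hs hsd hNs
      obtain ⟨Z, hZ0, m, π, P, hP, hπc, hπΓ, hπN, hdim⟩ := hkey s hs hsd
      have h3 := fub3 hπc hK'm (P := P) (measure_mono_null (t := {ω | (π ω).1 ∈ N}) (by
        intro ω hω
        by_contra hcon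
        exact hK' _ (hπΓ ω) hcon hω) (hπN N hNs))
      refine hS d K' ({t : ℝ | P {ω | pt t ((π ω).2 + t • (π ω).1) ∈ K'} ≠ 0} \ Z) _ ?_ ?_
      · rw [measure_sdiff_null (volume_zero_of_dimH hZ0)]
        exact pos_iff_ne_zero.2 h3
      · rintro t ⟨ht, htZ⟩
        have hsub : (fun ω => (π ω).2 + t • (π ω).1) ''
            {ω | pt t ((π ω).2 + t • (π ω).1) ∈ K'} ⊆ {y : E d | pt t y ∈ K'} := by
          rintro _ ⟨ω, hω, rfl⟩
          exact hω
        refine ⟨?_, (hdim t htZ _ ht).trans (dimH_mono hsub)⟩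
        have hne' : {ω | pt t ((π ω).2 + t • (π ω).1) ∈ K'}.Nonempty := by
          rw [nonempty_iff_ne_empty]
          intro h0
          exact ht (by rw [h0]; exact measure_empty)
        obtain ⟨ω, hω⟩ := hne'
        exact ⟨_, hω⟩
    have h3 : dimH (Prod.fst '' Γ) + 1 ≤ dimH K' := by
      by_contra hcon
      push Not at hcon
      have h4' : dimH K' - 1 < dimH (Prod.fst '' Γ) :=
        (ENNReal.sub_lt_iff_lt_right ENNReal.one_ne_top h1).2 hcon
      have h4N : dimH N < dimH (Prod.fst '' Γ) := by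
        rcases N.eq_empty_or_nonempty with h | h
        · rw [h, dimH_empty]
          exact lt_of_le_of_lt zero_le h4'
        · exact hN h
      have h4 : max (dimH K' - 1) (dimH N) < dimH (Prod.fst '' Γ) := max_lt h4' h4N
      obtain ⟨q, hq0, hxq, hq⟩ := ENNReal.lt_iff_exists_rat_btwn.1 h4
      have hxq' : max (dimH K' - 1) (dimH N) < ENNReal.ofReal (q : ℝ) := hxq
      have hq' : (0 : ℝ) < (q : ℝ) := by
        by_contra h
        push Not at h
        have h5 : ENNReal.ofReal (q : ℝ) = 0 := ENNReal.ofReal_of_nonpos h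
        rw [h5] at hxq'
        exact absurd hxq' not_lt_zero
      have h5 := h2 q hq' hq ((le_max_right _ _).trans_lt hxq')
      have h6 : ENNReal.ofReal (q : ℝ) ≤ dimH K' - 1 :=
        ENNReal.le_sub_of_add_le_right ENNReal.one_ne_top h5
      exact absurd (lt_of_lt_of_le ((le_max_left _ _).trans_lt hxq') h6) (lt_irrefl _)
    rw [hK'd] at h3
    refine ⟨h3, fun hd => le_antisymm ?_ (by rw [hd] at h3; exact h3)⟩
    calc dimH K ≤ dimH (univ : Set (E (d + 1))) := dimH_mono (subset_univ _)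
      _ = d + 1 := by
        rw [Real.dimH_univ_eq_finrank]
        simp

end Pool.Agent.V5helper28.KP
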