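import Pool.Agent.V5helper28.KP.Asm
import Pool.Agent.V5helper28.KP.A2
import Pool.Agent.V5helper12.SSK.JobW
import Pool.Agent.V5helper29.SSK.JobS
import Pool.Agent.V5helper48.KP.BLK
import Pool.Agent.V5helper6.KP.FUB
import Pool.Agent.V5helper91.KP.GOOD
import Pool.Agent.V5helper47.KP.HULL
import Pool.Agent.V5helper69.KP.MD
import Pool.Agent.V5helper76.KP.NULS
import Pool.Agent.V5helper4.KP.PC
import Pool.Agent.V5helper16.KP.PCE
import Pool.Agent.V5helper4.KP.PK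
import Pool.Agent.V5helper43.KP.SEP
import Pool.Agent.V5helper16.KP.TL
import Pool.Agent.V5helper96.KP.UNI

/-!
# Subfamilies of homogeneous self-similar families of lines
-/

set_option autoImplicit false

namespace Pool.Agent.V5helper28.KP

open MeasureTheory Set
open Pool.Agent.V5helper28.SSK
open scoped ENNReal

theorem homog {d : ℕ} {I : Type} [Fintype I] {r : ℝ} {b : I → E d × E d} {Γ : Set (E d × E d)}
    (hr : 0 < r) (hr1 : r < 1) (hN : (Fintype.card I : ℝ) * r ^ d = 1) (hc : IsCompact Γ)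
    (hΓ : Γ = ⋃ i, (fun z => r • z + b i) '' Γ) :
    ∃ Z : Set ℝ, dimH Z = 0 ∧
      (∀ t, t ∉ Z → ∀ Γ' : Set (E d × E d), Γ' ⊆ Γ → volume (Prod.fst '' Γ') ≠ 0 →
        dimH ((fun z : E d × E d => z.2 + t • z.1) '' Γ') = d) ∧
      ∀ K : Set (E (d + 1)),
        volume {x : E d | ∃ a : E d, (x, a) ∈ Γ ∧ volume {t : ℝ | pt t (a + t • x) ∈ K} ≠ 0} ≠ 0 →
        dimH K = d + 1 := by
  refine fin_one t_A2 Pool.Agent.V5helper12.SSK.jobW Pool.Agent.V5helper16.KP.t_PCE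
    Pool.Agent.V5helper76.KP.t_NUL Pool.Agent.V5helper43.KP.t_SEP Pool.Agent.V5helper96.KP.t_UNI
    Pool.Agent.V5helper47.KP.t_HULL Pool.Agent.V5helper6.KP.t_FUB Pool.Agent.V5helper4.KP.t_PC
    Pool.Agent.V5helper4.KPK.t_PK Pool.Agent.V5helper16.KP.t_TL Pool.Agent.V5helper48.KP.t_BLK
    (Pool.Agent.V5helper91.KP.t_GOOD Pool.Agent.V5helper69.KP.t_MD)
    Pool.Agent.V5helper29.SSK.jobS ⟨hc, Fintype.card I, r,
      fun j => b ((Fintype.equivFin I).symm j), hr, hr1, hN, ?_⟩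
  have h1 : (⋃ i, (fun z => r • z + b i) '' Γ) =
      ⋃ j : Fin (Fintype.card I), (fun z => r • z + b ((Fintype.equivFin I).symm j)) '' Γ :=
    ((Fintype.equivFin I).symm.surjective.iUnion_comp fun i => (fun z => r • z + b i) '' Γ).symm
  rw [← h1]
  exact hΓ

end Pool.Agent.V5helper28.KP
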