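import Pool.Agent.V5helper28.KP.Asm3
import Pool.Agent.V5helper28.KP.Fin3
import Pool.Agent.V5helper48.KP.GG
import Pool.Agent.V5helper4.KP.COD
import Pool.Agent.V5helper69.KP.PRO
import Pool.Agent.V5helper72.KP.PAC

/-!
# Graph-directed families of lines and arbitrary sets
-/

set_option autoImplicit false

namespace Pool.Agent.V5helper28.KP

open MeasureTheory Set
open Pool.Agent.V5helper28.SSK
open scoped ENNReal

theorem fin_gd (hGOOD2 : S_GOOD2) (hCOD : S_COD) {d : ℕ} {P I : Type} [Finite P] [Fintype I]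
    {src tgt : I → P} {R : I → ℝ} {b : I → E d × E d} {Γ : P → Set (E d × E d)}
    (h : GD P I src tgt R b Γ) :
    (∃ Z : Set ℝ, dimH Z = 0 ∧ ∀ t, t ∉ Z → ∀ p,
      dimH (Prod.fst '' Γ p) ≤ dimH ((fun z : E d × E d => z.2 + t • z.1) '' Γ p)) ∧
    ∀ (p : P) (K : Set (E (d + 1))) (N : Set (E d)),
      (N.Nonempty → dimH N < dimH (Prod.fst '' Γ p)) →
      (∀ z ∈ Γ p, z.1 ∉ N → volume {t : ℝ | pt t (z.2 + t • z.1) ∈ K} ≠ 0) →
      dimH (Prod.fst '' Γ p) + 1 ≤ dimH K ∧ (dimH (Prod.fst '' Γ p) = d → dimH K = d + 1) := by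
  have h1 := fun p => kak3 t_A2 Pool.Agent.V5helper12.SSK.jobW Pool.Agent.V5helper4.KP.t_PC
    Pool.Agent.V5helper4.KPK.t_PK Pool.Agent.V5helper16.KP.t_TL Pool.Agent.V5helper48.KP.t_BLK
    hGOOD2 hCOD Pool.Agent.V5helper69.KP.t_PRO Pool.Agent.V5helper72.KP.t_PAC
    Pool.Agent.V5helper47.KP.t_HULL Pool.Agent.V5helper29.SSK.jobS (h.nonempty p) (h.compact p)
    (fun s hs hsd => Pool.Agent.V5helper48.KP.t_GG d P I src tgt R b Γ h p s hs hsd)
  refine ⟨?_, fun p => (h1 p).2⟩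
  have h2 := fun p => (h1 p).1
  choose Z hZ0 hZ using h2
  have : Countable P := inferInstance
  refine ⟨⋃ p, Z p, ?_, fun t ht p => ?_⟩
  · rw [dimH_iUnion]
    simp only [ENNReal.iSup_eq_zero]
    exact hZ0
  · rw [mem_iUnion] at ht
    push Not at ht
    exact hZ p t (ht p)

end Pool.Agent.V5helper28.KP
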