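import Pool.Agent.V5helper28.SSK.Defs

/-!
# Graph-directed families with a finite group of rotations (row MP_b1773a_an), project KP
-/

set_option autoImplicit false

namespace Pool.Agent.V5helper28.KP

open MeasureTheory Set
open Pool.Agent.V5helper28.SSK
open scoped ENNReal

/-- A strongly connected graph-directed self-similar system of families of lines: vertices `P`,
edges `I` from `src i` to `tgt i`, `Γ p` is the union over the edges `i` with `src i = p` of
`R i • (O i × O i) (Γ (tgt i)) + b i`, where the linear isometries `O i` of `ℝ^d` (acting on the slopes and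
on the positions) generate a finite group. -/
structure RGD {d : ℕ} (P I : Type) (src tgt : I → P) (R : I → ℝ) (O : I → (E d ≃ₗᵢ[ℝ] E d))
    (b : I → E d × E d) (Γ : P → Set (E d × E d)) : Prop where
  ratio : ∀ i, 0 < R i ∧ R i < 1
  finite : Finite (Subgroup.closure (Set.range O))
  nonempty : ∀ p, (Γ p).Nonempty
  compact : ∀ p, IsCompact (Γ p)
  inv : ∀ p, Γ p = ⋃ (i : I) (_ : src i = p),
    (fun z : E d × E d => R i • (O i z.1, O i z.2) + b i) '' Γ (tgt i)
  conn : ∀ p q : P, Relation.ReflTransGen (fun p q => ∃ i, src i = p ∧ tgt i = q) p q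

/-- JOB GGR (adapt `V5helper48.KP.GG`).  `G` = the finite group.  Paths `w` now have a rotation
`g_w ∈ G` and the map of `w` is `z ↦ ρ_w • g_w z + B w` (`g_w` acting on both components).  Classes of
paths of length `k` from `p`: same ratio, same end `q`, same rotation `g`: at most
`(k + 1) ^ |I| * |P| * |G|` classes.  New lemma (instead of the path back): for every `(q, g)` for which some
path `w₀` from `p` to `q` has rotation `g` there is a path `e` from `q` to `p` with rotation `g⁻¹`: let `c` be
any path from `q` to `p`, with rotation `h`, and `n ≥ 1` with `(g h) ^ n = 1` (finite group); then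
`e = c (w₀ c) ^ (n - 1)` has rotation `h (g h) ^ (n - 1) = g⁻¹`.  So `w e` is a loop at `p` with the identity
as rotation, `z ↦ r • z + (v, a)`, slope part `v_w + ρ g v_e`: the same shift for the whole class, the
separation does not change; everything else as in GG. -/
def S_GGR : Prop :=
  ∀ (d : ℕ) (P I : Type) [Finite P] [Fintype I] (src tgt : I → P) (R : I → ℝ)
    (O : I → (E d ≃ₗᵢ[ℝ] E d)) (b : I → E d × E d) (Γ : P → Set (E d × E d)),
    RGD P I src tgt R O b Γ → ∀ (p : P) (s : ℝ),
    0 < s → ENNReal.ofReal s < dimH (Prod.fst '' Γ p) →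
    ∃ (m : ℕ) (r κ : ℝ) (v a : Fin m → E d), 0 < m ∧ 0 < r ∧ r < 1 ∧ 0 < κ ∧
      (∀ k, ∀ z ∈ Γ p, r • z + (v k, a k) ∈ Γ p) ∧ Sep v r κ ∧ s ≤ Real.log m / Real.log r⁻¹

end Pool.Agent.V5helper28.KP
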